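import Pool.Agent.Run7.h51.LL.Conv

/-!
# Polynomials are dense in the weighted space
-/

open Set Metric Filter Topology MeasureTheory
open scoped ENNReal

namespace Pool.Agent.Run7.h51.LL

/-- The conclusion of the stage lemma. -/
def Good (W : ℝ → ℝ) (Ω U : Set ℂ) (n : ℕ) : Prop :=
  ∀ (g φ : ℂ → ℂ), RM Ω g φ →
    ∀ p : ℝ, 1 ≤ p → p ≤ n + 1 → ∀ f : ℂ → ℂ, DifferentiableOn ℂ f Ω →
      (∫⁻ z in Ω, ‖f z‖ₑ ^ p * ENNReal.ofReal (W (1 - ‖φ z‖)) ≤ 1) →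
      ∃ P : Polynomial ℂ,
        (∀ z ∈ Ω, ((sa n ^ 2 : ℝ) : ℂ) * z ∈ U →
          ‖P.eval z - f (((sa n ^ 3 : ℝ) : ℂ) * z)‖ ≤ (1 / 2) ^ n) ∧
        (∀ z ∈ Ω, ((sa n ^ 2 : ℝ) : ℂ) * z ∉ U →
          ‖P.eval z‖ ^ p * W (1 - ‖φ z‖) ≤ ((1 / 2) ^ n) ^ p)

variable {W : ℝ → ℝ} {Ω : Set ℂ} {g φ : ℂ → ℂ}

theorem good_scaled {U : Set ℂ} {n : ℕ} (hgood : Good W Ω U n) (hR : RM Ω g φ) {q : ℝ} (hq : 1 ≤ q)
    (hqn : q ≤ n + 1) {f : ℂ → ℂ} (hf : DifferentiableOn ℂ f Ω) {A : ℝ} (hA : 0 < A)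
    (hint : ∫⁻ z in Ω, ‖f z‖ₑ ^ q * ENNReal.ofReal (W (1 - ‖φ z‖)) ≤ ENNReal.ofReal A ^ q) :
    ∃ P : Polynomial ℂ,
      (∀ z ∈ Ω, ((sa n ^ 2 : ℝ) : ℂ) * z ∈ U →
        ‖P.eval z - f (((sa n ^ 3 : ℝ) : ℂ) * z)‖ ≤ A * (1 / 2) ^ n) ∧
      (∀ z ∈ Ω, ((sa n ^ 2 : ℝ) : ℂ) * z ∉ U →
        ‖P.eval z‖ ^ q * W (1 - ‖φ z‖) ≤ (A * (1 / 2) ^ n) ^ q) := by
  have hAc : (A : ℂ) ≠ 0 := by exact_mod_cast hA.ne'
  have hint1 : ∫⁻ z in Ω, ‖((A⁻¹ : ℝ) : ℂ) * f z‖ₑ ^ q * ENNReal.ofReal (W (1 - ‖φ z‖)) ≤ 1 := by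
    have h1 : ∀ z, ‖((A⁻¹ : ℝ) : ℂ) * f z‖ₑ ^ q * ENNReal.ofReal (W (1 - ‖φ z‖))
        = ENNReal.ofReal A⁻¹ ^ q * (‖f z‖ₑ ^ q * ENNReal.ofReal (W (1 - ‖φ z‖))) := by
      intro z
      rw [enorm_mul, ENNReal.mul_rpow_of_nonneg _ _ (by linarith), mul_assoc]
      congr 2
      rw [← ofReal_norm, Complex.norm_real, Real.norm_of_nonneg (by positivity)]
    simp only [h1]
    rw [lintegral_const_mul' _ _ (ENNReal.rpow_ne_top_of_nonneg (by linarith)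
      ENNReal.ofReal_ne_top)]
    calc ENNReal.ofReal A⁻¹ ^ q * ∫⁻ z in Ω, ‖f z‖ₑ ^ q * ENNReal.ofReal (W (1 - ‖φ z‖))
        ≤ ENNReal.ofReal A⁻¹ ^ q * ENNReal.ofReal A ^ q := by gcongr
      _ = (ENNReal.ofReal A⁻¹ * ENNReal.ofReal A) ^ q :=
          (ENNReal.mul_rpow_of_nonneg _ _ (by linarith)).symm
      _ = 1 := by
          rw [← ENNReal.ofReal_mul (by positivity), inv_mul_cancel₀ hA.ne', ENNReal.ofReal_one,
            ENNReal.one_rpow]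
  obtain ⟨P, hP1, hP2⟩ := hgood g φ hR q hq hqn (fun z => ((A⁻¹ : ℝ) : ℂ) * f z)
    (hf.const_mul _) hint1
  refine ⟨Polynomial.C (A : ℂ) * P, fun z hz hzU => ?_, fun z hz hzU => ?_⟩
  · have h1 := hP1 z hz hzU
    have h2 : (Polynomial.C (A : ℂ) * P).eval z - f (((sa n ^ 3 : ℝ) : ℂ) * z)
        = (A : ℂ) * (P.eval z - ((A⁻¹ : ℝ) : ℂ) * f (((sa n ^ 3 : ℝ) : ℂ) * z)) := by
      rw [Polynomial.eval_mul, Polynomial.eval_C, mul_sub, ← mul_assoc]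
      congr 1
      push_cast
      rw [mul_inv_cancel₀ hAc, one_mul]
    rw [h2, norm_mul, Complex.norm_real, Real.norm_of_nonneg hA.le]
    gcongr
  · have h1 := hP2 z hz hzU
    rw [Polynomial.eval_mul, Polynomial.eval_C, norm_mul, Complex.norm_real,
      Real.norm_of_nonneg hA.le, Real.mul_rpow hA.le (norm_nonneg _), mul_assoc,
      Real.mul_rpow hA.le (by positivity)]
    gcongr

theorem approx (hW : IsW W) (hΩ : IsOpen Ω) (hΩ1 : Ω ⊆ ball 0 1) (hR : RM Ω g φ)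
    (hs : ∀ s ∈ Icc (0 : ℝ) 1, ∀ z ∈ Ω, (s : ℂ) * z ∈ Ω) {U : ℕ → Set ℂ}
    (hUo : ∀ n, IsOpen (U n)) (hUev : ∀ z ∈ Ω, ∀ᶠ n in atTop, ((sa n ^ 2 : ℝ) : ℂ) * z ∈ U n)
    (hgood : ∀ n, Good W Ω (U n) n) {p : ℝ≥0∞} (hp : 1 ≤ p) (hp' : p ≠ ∞) {f : ℂ → ℂ}
    (hf : DifferentiableOn ℂ f Ω) (hfp : MemLp f p (mu Ω φ W)) {ε : ℝ≥0∞} (hε : 0 < ε) :
    ∃ P : Polynomial ℂ, eLpNorm (fun z => f z - P.eval z) p (mu Ω φ W) ≤ ε := by
  have hfin : IsFiniteMeasure (mu Ω φ W) := ⟨mu_univ hW hΩ hΩ1 hR⟩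
  set q := p.toReal with hqdef
  have hq : 1 ≤ q := by
    rw [hqdef, ← ENNReal.toReal_one]
    exact ENNReal.toReal_mono hp' hp
  have hq0 : 0 < q := by linarith
  set A := (eLpNorm f p (mu Ω φ W)).toReal + 1 with hA
  have hApos : 0 < A := by positivity
  have hint : ∫⁻ z in Ω, ‖f z‖ₑ ^ q * ENNReal.ofReal (W (1 - ‖φ z‖)) ≤ ENNReal.ofReal A ^ q := by
    have h1 := eLpNorm_mu hW hΩ hR hp hp' f
    have h2 : eLpNorm f p (mu Ω φ W) ≤ ENNReal.ofReal A := by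
      rw [← ENNReal.ofReal_toReal hfp.eLpNorm_lt_top.ne]
      exact ENNReal.ofReal_le_ofReal (by rw [hA]; linarith)
    rw [h1] at h2
    calc ∫⁻ z in Ω, ‖f z‖ₑ ^ q * ENNReal.ofReal (W (1 - ‖φ z‖))
        = ((∫⁻ z in Ω, ‖f z‖ₑ ^ q * ENNReal.ofReal (W (1 - ‖φ z‖))) ^ (1 / q)) ^ q := by
          rw [← ENNReal.rpow_mul, one_div, inv_mul_cancel₀ hq0.ne', ENNReal.rpow_one]
      _ ≤ ENNReal.ofReal A ^ q := by gcongr
  have hex : ∀ n : ℕ, ∃ P : Polynomial ℂ, q ≤ n + 1 →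
      (∀ z ∈ Ω, ((sa n ^ 2 : ℝ) : ℂ) * z ∈ U n →
        ‖P.eval z - f (((sa n ^ 3 : ℝ) : ℂ) * z)‖ ≤ A * (1 / 2) ^ n) ∧
      (∀ z ∈ Ω, ((sa n ^ 2 : ℝ) : ℂ) * z ∉ U n →
        ‖P.eval z‖ ^ q * W (1 - ‖φ z‖) ≤ (A * (1 / 2) ^ n) ^ q) := by
    intro n
    by_cases hn : q ≤ n + 1
    · obtain ⟨P, hP⟩ := good_scaled (hgood n) hR hq hn hf hApos hint
      exact ⟨P, fun _ => hP⟩
    · exact ⟨0, fun h => absurd h hn⟩
  choose P hP using hex
  set H : ℕ → Set ℂ := fun n => {z | ((sa n ^ 2 : ℝ) : ℂ) * z ∈ U n} with hH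
  have hHm : ∀ n, MeasurableSet (H n) := fun n =>
    ((hUo n).preimage (by fun_prop : Continuous fun z : ℂ => ((sa n ^ 2 : ℝ) : ℂ) * z)).measurableSet
  have hr1 : ∀ n, sa n ^ 3 ∈ Icc (0 : ℝ) 1 := fun n =>
    ⟨by have := sa_pos n; positivity, pow_le_one₀ (sa_pos n).le (sa_lt_one n).le⟩
  set fn : ℕ → ℂ → ℂ := fun n z => f (((sa n ^ 3 : ℝ) : ℂ) * z) with hfn
  have hfc : ContinuousOn f Ω := hf.continuousOn
  have hfnc : ∀ n, ContinuousOn (fn n) Ω := fun n =>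
    hfc.comp (by fun_prop) fun z hz => hs _ (hr1 n) z hz
  have hPc : ∀ n, ContinuousOn (fun z => (P n).eval z) Ω := fun n =>
    (P n).continuous.continuousOn
  set e : ℕ → ℝ≥0∞ := fun n => eLpNorm (fun z => f z - fn n z) p (mu Ω φ W) with he
  set t : ℕ → ℝ≥0∞ := fun n => eLpNorm ((H n)ᶜ.indicator f) p (mu Ω φ W) with ht
  set m₁ : ℝ≥0∞ := mu Ω φ W univ ^ p.toReal⁻¹ with hm₁
  set m₂ : ℝ≥0∞ := volume Ω ^ (1 / q) with hm₂
  set c : ℕ → ℝ≥0∞ := fun n => ENNReal.ofReal (A * (1 / 2) ^ n) with hc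
  have hm₁' : m₁ ≠ ∞ := ENNReal.rpow_ne_top_of_nonneg (by positivity) (measure_ne_top _ _)
  have hm₂' : m₂ ≠ ∞ := ENNReal.rpow_ne_top_of_nonneg (by positivity)
    ((measure_mono hΩ1).trans_lt measure_ball_lt_top).ne
  have he0 : Tendsto e atTop (𝓝 0) := dil_tendsto hW hΩ hΩ1 hR hs hp hp' hfc hfp
  have ht0 : Tendsto t atTop (𝓝 0) := tail_tendsto hW hΩ hR hp hp' hfc hfp hHm hUev
  have hc0 : Tendsto c atTop (𝓝 0) := by
    have h1 : Tendsto (fun n : ℕ => A * (1 / 2 : ℝ) ^ n) atTop (𝓝 0) := by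
      have := (tendsto_pow_atTop_nhds_zero_of_lt_one (r := (1 / 2 : ℝ)) (by norm_num)
        (by norm_num)).const_mul A
      simpa using this
    have h2 := (ENNReal.continuous_ofReal.tendsto 0).comp h1
    rwa [ENNReal.ofReal_zero] at h2
  have hbound : ∀ n : ℕ, q ≤ n + 1 → eLpNorm (fun z => f z - (P n).eval z) p (mu Ω φ W)
      ≤ e n + (m₁ * c n + (t n + (e n + c n * m₂))) := by
    intro n hn
    obtain ⟨hP1, hP2⟩ := hP n hn
    have hA1 : AEStronglyMeasurable (fun z => f z - fn n z) (mu Ω φ W) :=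
      aesm_mu hΩ (hfc.sub (hfnc n))
    have hA2 : AEStronglyMeasurable ((H n).indicator fun z => fn n z - (P n).eval z)
        (mu Ω φ W) := (aesm_mu hΩ ((hfnc n).sub (hPc n))).indicator (hHm n)
    have hA3 : AEStronglyMeasurable ((H n)ᶜ.indicator f) (mu Ω φ W) :=
      (aesm_mu hΩ hfc).indicator (hHm n).compl
    have hA4 : AEStronglyMeasurable ((H n)ᶜ.indicator fun z => f z - fn n z) (mu Ω φ W) :=
      hA1.indicator (hHm n).compl
    have hA5 : AEStronglyMeasurable ((H n)ᶜ.indicator fun z => (P n).eval z) (mu Ω φ W) :=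
      (aesm_mu hΩ (hPc n)).indicator (hHm n).compl
    have hB2 : eLpNorm ((H n).indicator fun z => fn n z - (P n).eval z) p (mu Ω φ W)
        ≤ m₁ * c n := by
      refine eLpNorm_le_of_ae_bound ?_
      filter_upwards [ae_mem (φ := φ) (W := W) hΩ] with z hz
      by_cases hzH : z ∈ H n
      · rw [indicator_of_mem hzH, norm_sub_rev]
        exact hP1 z hz hzH
      · rw [indicator_of_notMem hzH, norm_zero]
        positivity
    have hB4 : eLpNorm ((H n)ᶜ.indicator fun z => f z - fn n z) p (mu Ω φ W) ≤ e n :=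
      eLpNorm_indicator_le _
    have hB5 : eLpNorm ((H n)ᶜ.indicator fun z => (P n).eval z) p (mu Ω φ W) ≤ c n * m₂ := by
      rw [eLpNorm_mu hW hΩ hR hp hp']
      calc (∫⁻ z in Ω, ‖(H n)ᶜ.indicator (fun z => (P n).eval z) z‖ₑ ^ p.toReal
            * ENNReal.ofReal (W (1 - ‖φ z‖))) ^ (1 / p.toReal)
          ≤ (∫⁻ z in Ω, c n ^ q) ^ (1 / q) := by
            refine ENNReal.rpow_le_rpow ?_ (by positivity)
            refine setLIntegral_mono' hΩ.measurableSet fun z hz => ?_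
            by_cases hzH : z ∈ H n
            · rw [indicator_of_notMem (by simpa using hzH), enorm_zero,
                ENNReal.zero_rpow_of_pos hq0, zero_mul]
              exact zero_le
            · rw [indicator_of_mem (by simpa using hzH)]
              have h1 := hP2 z hz hzH
              rw [← ofReal_norm, ENNReal.ofReal_rpow_of_nonneg (norm_nonneg _) hq0.le,
                ← ENNReal.ofReal_mul (by positivity)]
              rw [hc]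
              simp only
              rw [ENNReal.ofReal_rpow_of_nonneg (by positivity) hq0.le]
              exact ENNReal.ofReal_le_ofReal h1
        _ = (c n ^ q * volume Ω) ^ (1 / q) := by rw [setLIntegral_const]
        _ = c n * m₂ := by
            rw [ENNReal.mul_rpow_of_nonneg _ _ (by positivity), ← ENNReal.rpow_mul, one_div,
              mul_inv_cancel₀ hq0.ne', ENNReal.rpow_one, hm₂, one_div]
    have hsum : (fun z => f z - (P n).eval z) = (fun z => f z - fn n z)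
        + (((H n).indicator fun z => fn n z - (P n).eval z)
          + ((H n)ᶜ.indicator f + (-((H n)ᶜ.indicator fun z => f z - fn n z)
            + -((H n)ᶜ.indicator fun z => (P n).eval z)))) := by
      funext z
      by_cases hzH : z ∈ H n
      · have h2 : z ∉ (H n)ᶜ := by simpa using hzH
        simp [indicator_of_mem hzH, indicator_of_notMem h2]
      · have h2 : z ∈ (H n)ᶜ := by simpa using hzH
        simp only [Pi.add_apply, Pi.neg_apply, indicator_of_mem h2, indicator_of_notMem hzH]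
        ring
    rw [hsum]
    refine (eLpNorm_add_le hA1 (hA2.add (hA3.add (hA4.neg.add hA5.neg))) hp).trans ?_
    refine add_le_add le_rfl ?_
    refine (eLpNorm_add_le hA2 (hA3.add (hA4.neg.add hA5.neg)) hp).trans ?_
    refine add_le_add hB2 ?_
    refine (eLpNorm_add_le hA3 (hA4.neg.add hA5.neg) hp).trans ?_
    refine add_le_add le_rfl ?_
    refine (eLpNorm_add_le hA4.neg hA5.neg hp).trans ?_
    rw [eLpNorm_neg, eLpNorm_neg]
    exact add_le_add hB4 hB5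
  have hlim : Tendsto (fun n => e n + (m₁ * c n + (t n + (e n + c n * m₂)))) atTop (𝓝 0) := by
    have h1 : Tendsto (fun n => m₁ * c n) atTop (𝓝 0) := by
      have := ENNReal.Tendsto.const_mul hc0 (Or.inr hm₁')
      rwa [mul_zero] at this
    have h2 : Tendsto (fun n => c n * m₂) atTop (𝓝 0) := by
      have := ENNReal.Tendsto.mul_const hc0 (Or.inr hm₂')
      rwa [zero_mul] at this
    have h3 := he0.add (h1.add (ht0.add (he0.add h2)))
    simpa using h3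
  have hev1 : ∀ᶠ n in atTop, e n + (m₁ * c n + (t n + (e n + c n * m₂))) ≤ ε :=
    (ENNReal.tendsto_nhds_zero.1 hlim) ε hε
  have hev2 : ∀ᶠ n : ℕ in atTop, q ≤ (n : ℝ) + 1 := by
    obtain ⟨N, hN⟩ := exists_nat_ge q
    filter_upwards [eventually_ge_atTop N] with n hn
    have : (N : ℝ) ≤ n := by exact_mod_cast hn
    linarith
  obtain ⟨n, hn1, hn2⟩ := (hev1.and hev2).exists
  exact ⟨P n, (hbound n hn2).trans hn1⟩

end Pool.Agent.Run7.h51.LL
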