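import Mathlib

/-!
# Elementary estimates for holomorphic maps into thin domains

`taylor2` is the second order Taylor estimate for a bounded holomorphic function. `thin` says: if
every point of `Ω` outside of the open set `G ∋ 0` is near a point that is not in `Ω`, then a
holomorphic map `ψ` of the unit disc into `Ω` with `ψ 0 = 0` takes values far from `G` only near the
unit circle.
-/

open Set Metric Filter Topology

namespace Pool.Agent.Run7.h51.LL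

theorem taylor2 {f : ℂ → ℂ} {c : ℂ} {r C : ℝ} (hr : 0 < r) (hd : DifferentiableOn ℂ f (ball c r))
    (hb : ∀ z ∈ ball c r, ‖f z‖ ≤ C) {z : ℂ} (hz : z ∈ ball c r) :
    ‖f z - f c - (z - c) * deriv f c‖ ≤ 4 * C * (‖z - c‖ / r) ^ 2 := by
  have hcc : c ∈ ball c r := mem_ball_self hr
  have hC : 0 ≤ C := (norm_nonneg _).trans (hb c hcc)
  have h1 : ‖deriv f c‖ ≤ 2 * C / r := by
    refine Complex.norm_deriv_le_div_of_mapsTo_ball hd (fun w hw => ?_) hr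
    rw [mem_closedBall, dist_eq_norm]
    calc ‖f w - f c‖ ≤ ‖f w‖ + ‖f c‖ := norm_sub_le _ _
      _ ≤ 2 * C := by linarith [hb w hw, hb c hcc]
  set g : ℂ → ℂ := fun w => f w - f c - (w - c) * deriv f c with hg
  have hgd : DifferentiableOn ℂ g (ball c r) := by
    refine (hd.sub_const _).sub ?_
    fun_prop
  have hgc : g c = 0 := by simp [hg]
  have hmaps : MapsTo g (ball c r) (closedBall (g c) (4 * C)) := by
    intro w hw
    rw [hgc, mem_closedBall, dist_zero_right]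
    have hw' : ‖w - c‖ ≤ r := by
      rw [← dist_eq_norm]; exact (mem_ball.1 hw).le
    calc ‖g w‖ ≤ ‖f w - f c‖ + ‖(w - c) * deriv f c‖ := norm_sub_le _ _
      _ ≤ (‖f w‖ + ‖f c‖) + ‖w - c‖ * ‖deriv f c‖ := by
          gcongr
          · exact norm_sub_le _ _
          · exact (norm_mul _ _).le
      _ ≤ (C + C) + r * (2 * C / r) := by
          gcongr
          · exact hb w hw
          · exact hb c hcc
      _ = 4 * C := by field_simp; ring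
  have hder : HasDerivAt f (deriv f c) c :=
    (hd.differentiableAt (ball_mem_nhds _ hr)).hasDerivAt
  have hlo : (g · - g c) =o[𝓝 c] (fun w => ‖w - c‖ ^ 1) := by
    have h2 := hasDerivAt_iff_isLittleO.1 hder
    simp only [hgc, sub_zero, pow_one]
    rw [Asymptotics.isLittleO_norm_right]
    simpa [hg, smul_eq_mul] using h2
  have h3 := Complex.dist_le_mul_div_pow_of_mapsTo_ball_of_isLittleO (n := 1) hgd hmaps hlo hz
  rw [hgc, dist_zero_right, dist_eq_norm] at h3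
  simpa [hg] using h3

theorem deriv_bound {ψ : ℂ → ℂ} {Ω : Set ℂ} {ζ : ℂ} {t ρ : ℝ} (ht : 0 < t)
    (hd : DifferentiableOn ℂ ψ (ball ζ t)) (hm : MapsTo ψ (ball ζ t) Ω) (hΩ : Ω ⊆ ball 0 1)
    {q : ℂ} (hq : q ∉ Ω) (hqd : dist q (ψ ζ) ≤ ρ) : ‖deriv ψ ζ‖ * t ≤ 6 * √ρ := by
  have hb : ∀ z ∈ ball ζ t, ‖ψ z‖ ≤ 1 := fun z hz => by
    have := hΩ (hm hz); rw [mem_ball_zero_iff] at this; exact this.le
  have hρ : 0 ≤ ρ := dist_nonneg.trans hqd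
  set a := ‖deriv ψ ζ‖ with ha
  have ha0 : 0 ≤ a := norm_nonneg _
  rcases ha0.eq_or_lt with h0 | hpos
  · rw [← h0, zero_mul]; positivity
  have hat : a * t ≤ 2 := by
    have h1 : ‖deriv ψ ζ‖ ≤ 2 / t := by
      refine Complex.norm_deriv_le_div_of_mapsTo_ball hd (fun w hw => ?_) ht
      rw [mem_closedBall, dist_eq_norm]
      calc ‖ψ w - ψ ζ‖ ≤ ‖ψ w‖ + ‖ψ ζ‖ := norm_sub_le _ _
        _ ≤ 2 := by linarith [hb w hw, hb ζ (mem_ball_self ht)]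
    rw [le_div_iff₀ ht] at h1
    exact h1
  set r := a * t ^ 2 / 8 with hr
  have hr0 : 0 < r := by positivity
  have hrt : r < t := by
    have : r = (a * t) * t / 8 := by rw [hr]; ring
    rw [this]; nlinarith
  have hcb : closedBall ζ r ⊆ ball ζ t := closedBall_subset_ball hrt
  have hne : ∃ᶠ z in 𝓝 ζ, ψ z ≠ ψ ζ := by
    have hder : HasDerivAt ψ (deriv ψ ζ) ζ :=
      (hd.differentiableAt (ball_mem_nhds _ ht)).hasDerivAt
    have h1 : ∀ᶠ z in 𝓝[≠] ζ, ψ z ≠ ψ ζ := hder.eventually_ne (norm_pos_iff.1 hpos)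
    exact h1.frequently.filter_mono nhdsWithin_le_nhds
  have hsph : ∀ z ∈ sphere ζ r, a ^ 2 * t ^ 2 / 16 ≤ ‖ψ z - ψ ζ‖ := by
    intro z hz
    have hzn : ‖z - ζ‖ = r := by rw [← dist_eq_norm]; exact hz
    have h1 := taylor2 ht hd hb (hcb (sphere_subset_closedBall hz))
    have h2 : ‖(z - ζ) * deriv ψ ζ‖ ≤ ‖ψ z - ψ ζ‖ + ‖ψ z - ψ ζ - (z - ζ) * deriv ψ ζ‖ := by
      have := norm_sub_le (ψ z - ψ ζ) (ψ z - ψ ζ - (z - ζ) * deriv ψ ζ)
      simpa using this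
    rw [norm_mul, hzn] at h2
    rw [hzn] at h1
    have h3 : r * a = a ^ 2 * t ^ 2 / 8 := by rw [hr]; ring
    have h4 : 4 * 1 * (r / t) ^ 2 = a ^ 2 * t ^ 2 / 16 := by
      rw [hr]; field_simp; ring
    rw [← ha, h3] at h2
    rw [h4] at h1
    linarith
  have himg := (hd.diffContOnCl_ball hcb).ball_subset_image_closedBall hr0 hsph hne
  have hlt : a ^ 2 * t ^ 2 / 16 / 2 ≤ ρ := by
    by_contra hcon
    push Not at hcon
    have hqm : q ∈ ball (ψ ζ) (a ^ 2 * t ^ 2 / 16 / 2) := mem_ball.2 (hqd.trans_lt hcon)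
    obtain ⟨w, hw, rfl⟩ := himg hqm
    exact hq (hm (hcb hw))
  have h5 : (a * t) ^ 2 ≤ (6 * √ρ) ^ 2 := by
    rw [mul_pow, mul_pow, Real.sq_sqrt hρ]; nlinarith
  exact abs_le_of_sq_le_sq' h5 (by positivity) |>.2

theorem thin {ψ : ℂ → ℂ} (hψ : DifferentiableOn ℂ ψ (ball 0 1)) {Ω : Set ℂ}
    (hm : MapsTo ψ (ball 0 1) Ω) (hΩ : Ω ⊆ ball 0 1) (h0 : ψ 0 = 0) {G : Set ℂ} (hG : IsOpen G)
    (h0G : (0 : ℂ) ∈ G) {d ρ : ℝ}
    (hnet : ∀ z ∈ Ω, z ∉ G → ∃ q, q ∉ Ω ∧ dist q z ≤ ρ) {ζ₀ : ℂ} (hζ : ‖ζ₀‖ < 1)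
    (hd : ∀ g ∈ closure G, d ≤ dist (ψ ζ₀) g) : d * (1 - ‖ζ₀‖) ≤ 6 * √ρ := by
  have hseg : ∀ s ∈ Icc (0 : ℝ) 1, ‖(s : ℂ) * ζ₀‖ ≤ ‖ζ₀‖ := by
    intro s hs
    rw [norm_mul, Complex.norm_real, Real.norm_of_nonneg hs.1]
    exact mul_le_of_le_one_left (norm_nonneg _) hs.2
  have hsegb : ∀ s ∈ Icc (0 : ℝ) 1, (s : ℂ) * ζ₀ ∈ ball (0 : ℂ) 1 := fun s hs => by
    rw [mem_ball_zero_iff]; exact (hseg s hs).trans_lt hζ
  set γ : ℝ → ℂ := fun s => ψ ((s : ℂ) * ζ₀) with hγ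
  have hder : ∀ s ∈ Icc (0 : ℝ) 1, HasDerivAt γ (ζ₀ * deriv ψ ((s : ℂ) * ζ₀)) s := by
    intro s hs
    have h1 : HasDerivAt ψ (deriv ψ ((s : ℂ) * ζ₀)) ((s : ℂ) * ζ₀) :=
      (hψ.differentiableAt (isOpen_ball.mem_nhds (hsegb s hs))).hasDerivAt
    have h2 : HasDerivAt (fun s : ℝ => (s : ℂ) * ζ₀) ζ₀ s := by
      simpa using (Complex.ofRealCLM.hasDerivAt (x := s)).mul_const ζ₀
    have h3 := h1.scomp s h2
    simpa [hγ, Function.comp_def, smul_eq_mul] using h3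
  have hcont : ContinuousOn γ (Icc 0 1) := fun s hs => (hder s hs).continuousAt.continuousWithinAt
  set S : Set ℝ := Icc (0 : ℝ) 1 ∩ γ ⁻¹' closure G with hS
  have hScl : IsClosed S := hcont.preimage_isClosed_of_isClosed isClosed_Icc isClosed_closure
  have hScpt : IsCompact S := isCompact_Icc.of_isClosed_subset hScl inter_subset_left
  have h0S : (0 : ℝ) ∈ S := by
    refine ⟨⟨le_rfl, zero_le_one⟩, ?_⟩
    have : γ 0 = 0 := by simp [hγ, h0]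
    rw [mem_preimage, this]
    exact subset_closure h0G
  obtain ⟨s₁, hs₁, hmax⟩ := hScpt.exists_isGreatest ⟨0, h0S⟩
  have hs01 : s₁ ∈ Icc (0 : ℝ) 1 := hs₁.1
  have ht : 0 < 1 - ‖ζ₀‖ := by linarith
  -- points after `s₁` are outside of `G`
  have hout : ∀ s ∈ Ico s₁ 1, γ s ∉ G := by
    intro s hs hsG
    rcases hs.1.eq_or_lt with h | h
    · -- `γ s₁ ∈ G`, so later points are in `G`
      have hnh : ∀ᶠ x in 𝓝[>] s, γ x ∈ G ∧ x ∈ Ioo s 1 := by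
        have hc : ContinuousAt γ s := (hder s ⟨hs01.1.trans hs.1, hs.2.le⟩).continuousAt
        have h1 : ∀ᶠ x in 𝓝 s, γ x ∈ G := hc.eventually_mem (hG.mem_nhds hsG)
        exact (h1.filter_mono nhdsWithin_le_nhds).and (Ioo_mem_nhdsGT hs.2)
      obtain ⟨x, hx1, hx2⟩ := hnh.exists
      have hxS : x ∈ S := ⟨⟨by linarith [hs01.1, hx2.1, hs.1], hx2.2.le⟩, subset_closure hx1⟩
      have := hmax hxS
      linarith [hx2.1]
    · have hxS : s ∈ S := ⟨⟨by linarith [hs01.1], hs.2.le⟩, subset_closure hsG⟩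
      have := hmax hxS
      linarith
  have hbound : ∀ s ∈ Ico s₁ 1, ‖ζ₀ * deriv ψ ((s : ℂ) * ζ₀)‖ ≤ 6 * √ρ / (1 - ‖ζ₀‖) := by
    intro s hs
    have hs' : s ∈ Icc (0 : ℝ) 1 := ⟨hs01.1.trans hs.1, hs.2.le⟩
    have hsub : ball ((s : ℂ) * ζ₀) (1 - ‖ζ₀‖) ⊆ ball 0 1 := by
      refine ball_subset_ball' ?_
      rw [dist_zero_right]
      linarith [hseg s hs']
    obtain ⟨q, hq1, hq2⟩ := hnet (γ s) (hm (hsegb s hs')) (hout s hs)
    have h1 := deriv_bound ht (hψ.mono hsub) (hm.mono_left hsub) hΩ hq1 hq2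
    rw [norm_mul, le_div_iff₀ ht]
    calc ‖ζ₀‖ * ‖deriv ψ ((s : ℂ) * ζ₀)‖ * (1 - ‖ζ₀‖)
        = ‖ζ₀‖ * (‖deriv ψ ((s : ℂ) * ζ₀)‖ * (1 - ‖ζ₀‖)) := by ring
      _ ≤ 1 * (‖deriv ψ ((s : ℂ) * ζ₀)‖ * (1 - ‖ζ₀‖)) := by
          gcongr
      _ ≤ 6 * √ρ := by rw [one_mul]; exact h1
  have hmv := norm_image_sub_le_of_norm_deriv_le_segment' (f := γ)
    (f' := fun s => ζ₀ * deriv ψ ((s : ℂ) * ζ₀)) (a := s₁) (b := 1)
    (C := 6 * √ρ / (1 - ‖ζ₀‖))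
    (fun s hs => (hder s ⟨hs01.1.trans hs.1, hs.2⟩).hasDerivWithinAt) hbound 1 ⟨hs01.2, le_rfl⟩
  have h1 : γ 1 = ψ ζ₀ := by simp [hγ]
  have h2 : d ≤ ‖γ 1 - γ s₁‖ := by
    rw [h1, ← dist_eq_norm]
    exact hd _ hs₁.2
  have h3 : d ≤ 6 * √ρ / (1 - ‖ζ₀‖) := by
    refine h2.trans (hmv.trans ?_)
    have h4 : 0 ≤ 6 * √ρ / (1 - ‖ζ₀‖) := by positivity
    have h5 : (1 : ℝ) - s₁ ≤ 1 := by linarith [hs01.1]
    calc 6 * √ρ / (1 - ‖ζ₀‖) * (1 - s₁) ≤ 6 * √ρ / (1 - ‖ζ₀‖) * 1 := by gcongr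
      _ = _ := mul_one _
  rw [le_div_iff₀ ht] at h3
  exact h3

end Pool.Agent.Run7.h51.LL
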