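import Pool.Agent.Run7.h51.LL.Lp

/-!
# Convergence of the dilations in the weighted spaces, and the final estimate
-/

open Set Metric Filter Topology MeasureTheory
open scoped ENNReal

namespace Pool.Agent.Run7.h51.LL

theorem sa_tendsto : Tendsto sa atTop (𝓝 1) := by
  have h1 : ∀ n : ℕ, sa n = 1 - 1 / (((n + 1 : ℕ) : ℝ) + 1) := by
    intro n
    unfold sa
    have hn : (0 : ℝ) ≤ n := n.cast_nonneg
    push_cast
    field_simp
    ring
  have h2 : Tendsto (fun n : ℕ => (1 : ℝ) / (((n + 1 : ℕ) : ℝ) + 1)) atTop (𝓝 0) :=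
    tendsto_one_div_add_atTop_nhds_zero_nat.comp (tendsto_add_atTop_nat 1)
  have h3 := h2.const_sub 1
  rw [sub_zero] at h3
  exact h3.congr fun n => (h1 n).symm

section

variable {W : ℝ → ℝ} {Ω : Set ℂ} {g φ : ℂ → ℂ}

theorem ae_mem (hΩ : IsOpen Ω) : ∀ᵐ z ∂(mu Ω φ W), z ∈ Ω :=
  (withDensity_absolutelyContinuous _ _).ae_le (ae_restrict_mem hΩ.measurableSet)

theorem dil_tendsto (hW : IsW W) (hΩ : IsOpen Ω) (hΩ1 : Ω ⊆ ball 0 1) (hR : RM Ω g φ)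
    (hs : ∀ s ∈ Icc (0 : ℝ) 1, ∀ z ∈ Ω, (s : ℂ) * z ∈ Ω) {p : ℝ≥0∞} (hp : 1 ≤ p) (hp' : p ≠ ∞)
    {f : ℂ → ℂ} (hf : ContinuousOn f Ω) (hfp : MemLp f p (mu Ω φ W)) :
    Tendsto (fun n => eLpNorm (fun z => f z - f (((sa n ^ 3 : ℝ) : ℂ) * z)) p (mu Ω φ W))
      atTop (𝓝 0) := by
  have hfin : IsFiniteMeasure (mu Ω φ W) := ⟨mu_univ hW hΩ hΩ1 hR⟩
  have hr8 : ∀ n, 1 / 8 ≤ sa n ^ 3 := fun n => by
    have h1 := half_le_sa n
    calc (1 / 8 : ℝ) = (1 / 2) ^ 3 := by norm_num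
      _ ≤ sa n ^ 3 := by gcongr
  have hr1 : ∀ n, sa n ^ 3 ≤ 1 := fun n => pow_le_one₀ (sa_pos n).le (sa_lt_one n).le
  have hr0 : ∀ n, 0 ≤ sa n ^ 3 := fun n => by have := sa_pos n; positivity
  rw [ENNReal.tendsto_nhds_zero]
  intro ε hε
  -- reduce to a finite `ε`
  set κ : ℝ≥0∞ := min ε 1 / 66 with hκ
  have hκ0 : κ ≠ 0 := by
    rw [hκ]
    exact (ENNReal.div_pos (lt_min hε one_pos).ne' (by norm_num)).ne'
  have hκ66 : 66 * κ ≤ ε := by
    rw [hκ, ENNReal.mul_div_cancel (by norm_num) (by norm_num)]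
    exact min_le_left _ _
  have hκtop : κ ≠ ∞ := by
    rw [hκ]
    exact (ENNReal.div_lt_top ((min_le_right _ _).trans_lt ENNReal.one_lt_top).ne
      (by norm_num)).ne
  obtain ⟨g₀, hg1, hg2, hg3, hg4⟩ := hfp.exists_hasCompactSupport_eLpNorm_sub_le hp' hκ0
  have huc : UniformContinuous g₀ := hg3.uniformContinuous_of_tendsto_cocompact hg1.is_zero_at_infty
  set m : ℝ≥0∞ := mu Ω φ W univ ^ p.toReal⁻¹ with hm
  have hmtop : m ≠ ∞ := by
    rw [hm]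
    exact ENNReal.rpow_ne_top_of_nonneg (by positivity) (measure_ne_top _ _)
  obtain ⟨c, hc0, hc⟩ : ∃ c : ℝ, 0 < c ∧ m * ENNReal.ofReal c ≤ κ := by
    have h1 : Tendsto (fun c : ℝ => m * ENNReal.ofReal c) (𝓝[>] 0) (𝓝 0) := by
      have h2 : Tendsto (fun c : ℝ => ENNReal.ofReal c) (𝓝[>] 0) (𝓝 0) := by
        have := (ENNReal.continuous_ofReal.tendsto 0).mono_left
          (nhdsWithin_le_nhds (s := Ioi (0 : ℝ)))
        rwa [ENNReal.ofReal_zero] at this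
      have h3 := ENNReal.Tendsto.const_mul h2 (Or.inr hmtop)
      rwa [mul_zero] at h3
    have h4 : ∀ᶠ c in 𝓝[>] (0 : ℝ), m * ENNReal.ofReal c ≤ κ :=
      (ENNReal.tendsto_nhds_zero.1 h1) κ (pos_iff_ne_zero.2 hκ0)
    obtain ⟨c, hc1, hc2⟩ := (h4.and self_mem_nhdsWithin).exists
    exact ⟨c, hc2, hc1⟩
  obtain ⟨δ, hδ, hδc⟩ := Metric.uniformContinuous_iff.1 huc c hc0
  have hlim : Tendsto (fun n => sa n ^ 3) atTop (𝓝 1) := by
    have := sa_tendsto.pow 3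
    rwa [one_pow] at this
  have hev : ∀ᶠ n in atTop, 1 - δ < sa n ^ 3 := hlim.eventually (lt_mem_nhds (by linarith))
  filter_upwards [hev] with n hn
  set r := sa n ^ 3 with hr
  have hmr : ∀ z ∈ Ω, (r : ℂ) * z ∈ Ω := fun z hz => hs r ⟨hr0 n, hr1 n⟩ z hz
  have hcr : ContinuousOn (fun z => f ((r : ℂ) * z)) Ω :=
    hf.comp (by fun_prop) hmr
  have hA1 : AEStronglyMeasurable (fun z => f z - g₀ z) (mu Ω φ W) :=
    aesm_mu hΩ (hf.sub hg3.continuousOn)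
  have hA2 : AEStronglyMeasurable (fun z => g₀ z - g₀ ((r : ℂ) * z)) (mu Ω φ W) :=
    aesm_mu hΩ (hg3.continuousOn.sub (hg3.comp (by fun_prop)).continuousOn)
  have hA3 : AEStronglyMeasurable (fun z => g₀ ((r : ℂ) * z) - f ((r : ℂ) * z)) (mu Ω φ W) :=
    aesm_mu hΩ ((hg3.comp (by fun_prop)).continuousOn.sub hcr)
  have hsum : (fun z => f z - f ((r : ℂ) * z))
      = (fun z => f z - g₀ z) + ((fun z => g₀ z - g₀ ((r : ℂ) * z))
        + fun z => g₀ ((r : ℂ) * z) - f ((r : ℂ) * z)) := by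
    funext z
    simp only [Pi.add_apply]
    ring
  have hB1 : eLpNorm (fun z => f z - g₀ z) p (mu Ω φ W) ≤ κ := hg2
  have hB2 : eLpNorm (fun z => g₀ z - g₀ ((r : ℂ) * z)) p (mu Ω φ W) ≤ κ := by
    refine (eLpNorm_le_of_ae_bound (C := c) ?_).trans hc
    filter_upwards [ae_mem (φ := φ) (W := W) hΩ] with z hz
    rw [← dist_eq_norm]
    refine (hδc ?_).le
    rw [dist_eq_norm]
    have h1 : z - (r : ℂ) * z = ((1 - r : ℝ) : ℂ) * z := by push_cast; ring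
    have h2 : ‖z‖ < 1 := mem_ball_zero_iff.1 (hΩ1 hz)
    rw [h1, norm_mul, Complex.norm_real, Real.norm_of_nonneg (by linarith [hr1 n])]
    have h3 : 1 - r < δ := by linarith
    have h4 : 0 ≤ 1 - r := by linarith [hr1 n]
    calc (1 - r) * ‖z‖ ≤ (1 - r) * 1 := by gcongr
      _ < δ := by linarith
  have hB3 : eLpNorm (fun z => g₀ ((r : ℂ) * z) - f ((r : ℂ) * z)) p (mu Ω φ W) ≤ 64 * κ := by
    refine (dilation_eLpNorm hW hΩ hR hs (hr8 n) (hr1 n) hp hp' (fun z => g₀ z - f z)).trans ?_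
    gcongr
    have h1 : eLpNorm (fun z => g₀ z - f z) p (mu Ω φ W)
        = eLpNorm (fun z => f z - g₀ z) p (mu Ω φ W) := by
      rw [← eLpNorm_neg]
      congr 1
      funext z
      simp
    rw [h1]
    exact hB1
  rw [hsum]
  calc _ ≤ eLpNorm (fun z => f z - g₀ z) p (mu Ω φ W)
        + eLpNorm ((fun z => g₀ z - g₀ ((r : ℂ) * z))
          + fun z => g₀ ((r : ℂ) * z) - f ((r : ℂ) * z)) p (mu Ω φ W) :=
        eLpNorm_add_le hA1 (hA2.add hA3) hp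
    _ ≤ eLpNorm (fun z => f z - g₀ z) p (mu Ω φ W)
        + (eLpNorm (fun z => g₀ z - g₀ ((r : ℂ) * z)) p (mu Ω φ W)
          + eLpNorm (fun z => g₀ ((r : ℂ) * z) - f ((r : ℂ) * z)) p (mu Ω φ W)) := by
        gcongr
        exact eLpNorm_add_le hA2 hA3 hp
    _ ≤ κ + (κ + 64 * κ) := by gcongr
    _ = 66 * κ := by ring
    _ ≤ ε := hκ66

theorem tail_tendsto (hW : IsW W) (hΩ : IsOpen Ω) (hR : RM Ω g φ) {p : ℝ≥0∞} (hp : 1 ≤ p)
    (hp' : p ≠ ∞) {f : ℂ → ℂ} (hf : ContinuousOn f Ω) (hfp : MemLp f p (mu Ω φ W))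
    {H : ℕ → Set ℂ} (hHm : ∀ n, MeasurableSet (H n)) (hH : ∀ z ∈ Ω, ∀ᶠ n in atTop, z ∈ H n) :
    Tendsto (fun n => eLpNorm ((H n)ᶜ.indicator f) p (mu Ω φ W)) atTop (𝓝 0) := by
  have hq : 0 < p.toReal := ENNReal.toReal_pos (by positivity) hp'
  have h1 : Tendsto (fun n => ∫⁻ z in Ω, ‖(H n)ᶜ.indicator f z‖ₑ ^ p.toReal
      * ENNReal.ofReal (W (1 - ‖φ z‖))) atTop (𝓝 (∫⁻ _ in Ω, (0 : ℝ≥0∞))) := by
    refine tendsto_lintegral_of_dominated_convergence'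
      (fun z => ‖f z‖ₑ ^ p.toReal * ENNReal.ofReal (W (1 - ‖φ z‖))) (fun n => ?_) (fun n => ?_)
      ?_ ?_
    · refine AEMeasurable.mul ?_ (weight_aemeasurable hW hΩ hR)
      refine AEMeasurable.pow_const ?_ _
      exact ((hf.aestronglyMeasurable hΩ.measurableSet).indicator (hHm n).compl).enorm
    · refine ae_of_all _ fun z => ?_
      simp only
      gcongr
      exact enorm_indicator_le_enorm_self f z
    · have h2 := hfp.eLpNorm_lt_top
      rw [eLpNorm_mu hW hΩ hR hp hp'] at h2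
      exact (ENNReal.rpow_lt_top_iff_of_pos (by positivity)).1 h2 |>.ne
    · filter_upwards [ae_restrict_mem hΩ.measurableSet] with z hz
      refine tendsto_const_nhds.congr' ?_
      filter_upwards [hH z hz] with n hn
      rw [indicator_of_notMem (by simpa using hn)]
      simp [hq]
  rw [lintegral_zero] at h1
  have h3 : ∀ n, eLpNorm ((H n)ᶜ.indicator f) p (mu Ω φ W)
      = (∫⁻ z in Ω, ‖(H n)ᶜ.indicator f z‖ₑ ^ p.toReal
        * ENNReal.ofReal (W (1 - ‖φ z‖))) ^ (1 / p.toReal) := fun n =>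
    eLpNorm_mu hW hΩ hR hp hp' _
  simp only [h3]
  have h4 := (ENNReal.continuous_rpow_const (y := 1 / p.toReal)).tendsto 0
  rw [ENNReal.zero_rpow_of_pos (by positivity)] at h4
  exact h4.comp h1

end

end Pool.Agent.Run7.h51.LL
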