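import Pool.Agent.Run7.h51.LL.Approx

/-!
# The domain
-/

open Set Metric Filter Topology MeasureTheory
open scoped ENNReal

namespace Pool.Agent.Run7.h51.LL

/-- A state of the construction: a starshaped set and a finite set outside of it. -/
structure St where
  /-- the starshaped set -/
  U : Set ℂ
  /-- the finite set to be avoided -/
  Q : Set ℂ
  ss : SS U
  fin : Q.Finite
  disj : Disjoint Q U

variable {W : ℝ → ℝ}

theorem next_step (hW : IsW W) (n : ℕ) (X : St) :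
    ∃ Y : St, X.U ⊆ Y.U ∧ X.Q ⊆ Y.Q ∧ volume (ball (0 : ℂ) 1 \ Y.U) ≤ (1 / 2 : ℝ≥0∞) ^ n ∧
      ∃ Q' ⊆ Y.Q, ∀ Ω : Set ℂ, X.U ⊆ Ω → Ω ⊆ ball 0 1 → Disjoint Q' Ω → Good W Ω X.U n := by
  obtain ⟨Q', h1, h2, h3⟩ := stage hW X.ss n
  have hε : (1 / 2 : ℝ≥0∞) ^ n ≠ 0 := pow_ne_zero _ (by simp)
  obtain ⟨U', h4, h5, h6, h7⟩ := step X.ss (X.fin.union h1) (X.disj.union_left h2) hε
  exact ⟨⟨U', X.Q ∪ Q', h4, X.fin.union h1, h6⟩, h5, subset_union_left, h7, Q',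
    subset_union_right, fun Ω h8 h9 h10 g φ hR => h3 Ω g φ h8 h9 h10 hR⟩

/-- The initial state. -/
def init : St where
  U := {z : ℂ | ‖z‖ < 1 ∧ -(1 / 2 : ℝ) < z.re}
  Q := {((-(3 / 4) : ℝ) : ℂ)}
  ss := by
    have h : {z : ℂ | ‖z‖ < 1 ∧ -(1 / 2 : ℝ) < z.re} = ball 0 1 ∩ {z | -(1 / 2 : ℝ) < z.re} := by
      ext z
      simp
    rw [h]
    refine SS.of_convex (isOpen_ball.inter (isOpen_lt continuous_const Complex.continuous_re))
      ((convex_ball 0 1).inter (convex_halfSpace_re_gt _)) ?_ inter_subset_left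
    simp
  fin := finite_singleton _
  disj := by
    rw [disjoint_singleton_left]
    rintro ⟨-, h⟩
    rw [Complex.ofReal_re] at h
    norm_num at h

/-- The sequence of states. -/
noncomputable def seq (hW : IsW W) : ℕ → St
  | 0 => init
  | n + 1 => (next_step hW n (seq hW n)).choose

theorem seq_spec (hW : IsW W) (n : ℕ) :
    (seq hW n).U ⊆ (seq hW (n + 1)).U ∧ (seq hW n).Q ⊆ (seq hW (n + 1)).Q ∧
      volume (ball (0 : ℂ) 1 \ (seq hW (n + 1)).U) ≤ (1 / 2 : ℝ≥0∞) ^ n ∧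
      ∃ Q' ⊆ (seq hW (n + 1)).Q, ∀ Ω : Set ℂ, (seq hW n).U ⊆ Ω → Ω ⊆ ball 0 1 →
        Disjoint Q' Ω → Good W Ω (seq hW n).U n :=
  (next_step hW n (seq hW n)).choose_spec

theorem exists_domain (hW : IsW W) : ∃ (Ω : Set ℂ) (U : ℕ → Set ℂ), IsOpen Ω ∧ Ω ⊆ ball 0 1 ∧
    {z : ℂ | ‖z‖ < 1 ∧ -(1 / 2 : ℝ) < z.re} ⊆ Ω ∧ ((-(3 / 4) : ℝ) : ℂ) ∉ Ω ∧
    volume (ball (0 : ℂ) 1 \ Ω) = 0 ∧ (∀ s ∈ Icc (0 : ℝ) 1, ∀ z ∈ Ω, (s : ℂ) * z ∈ Ω) ∧
    (∀ n, IsOpen (U n)) ∧ (∀ z ∈ Ω, ∀ᶠ n in atTop, ((sa n ^ 2 : ℝ) : ℂ) * z ∈ U n) ∧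
    ∀ n, Good W Ω (U n) n := by
  have hmU : Monotone fun n => (seq hW n).U := monotone_nat_of_le_succ fun n => (seq_spec hW n).1
  have hmQ : Monotone fun n => (seq hW n).Q := monotone_nat_of_le_succ fun n => (seq_spec hW n).2.1
  have hsub : ∀ n, (seq hW n).U ⊆ ⋃ n, (seq hW n).U := fun n =>
    subset_iUnion (fun n => (seq hW n).U) n
  have hball : (⋃ n, (seq hW n).U) ⊆ ball 0 1 := iUnion_subset fun n => (seq hW n).ss.sub
  have hdisj : ∀ n (Q' : Set ℂ), Q' ⊆ (seq hW n).Q → Disjoint Q' (⋃ n, (seq hW n).U) := by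
    intro n Q' hQ'
    rw [disjoint_iUnion_right]
    intro m
    exact ((seq hW (max m n)).disj).mono (hQ'.trans (hmQ (le_max_right m n)))
      (hmU (le_max_left m n))
  refine ⟨⋃ n, (seq hW n).U, fun n => (seq hW n).U, isOpen_iUnion fun n => (seq hW n).ss.isOpen,
    hball, hsub 0, ?_, ?_, ?_, fun n => (seq hW n).ss.isOpen, ?_, ?_⟩
  · have h1 := hdisj 0 _ (subset_refl _)
    rw [Set.disjoint_left] at h1
    exact h1 (mem_singleton _)
  · have h1 : ∀ n : ℕ, volume (ball (0 : ℂ) 1 \ ⋃ n, (seq hW n).U) ≤ (1 / 2 : ℝ≥0∞) ^ n :=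
      fun n => (measure_mono (sdiff_subset_sdiff_right (hsub (n + 1)))).trans
        (seq_spec hW n).2.2.1
    have h2 : Tendsto (fun n : ℕ => (1 / 2 : ℝ≥0∞) ^ n) atTop (𝓝 0) :=
      ENNReal.tendsto_pow_atTop_nhds_zero_of_lt_one (by
        rw [one_div]; exact ENNReal.one_half_lt_one)
    exact le_antisymm (ge_of_tendsto' h2 h1) (zero_le)
  · intro s hs z hz
    obtain ⟨n, hn⟩ := mem_iUnion.1 hz
    exact hsub n ((seq hW n).ss.mul_mem hs.1 hs.2 hn)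
  · intro z hz
    obtain ⟨m, hm⟩ := mem_iUnion.1 hz
    filter_upwards [eventually_ge_atTop m] with n hn
    exact (seq hW n).ss.mul_mem (by positivity) (pow_le_one₀ (sa_pos n).le (sa_lt_one n).le)
      (hmU hn hm)
  · intro n
    obtain ⟨Q', h1, h2⟩ := (seq_spec hW n).2.2.2
    exact h2 _ (hsub n) hball (hdisj (n + 1) Q' h1)

/-- The unit disc is contained in the closure of a subset of full area. -/
theorem ball_subset_closure {Ω : Set ℂ} (h : volume (ball (0 : ℂ) 1 \ Ω) = 0) :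
    ball (0 : ℂ) 1 ⊆ closure Ω := by
  intro z hz
  rw [_root_.mem_closure_iff]
  intro o ho hzo
  by_contra hcon
  rw [not_nonempty_iff_eq_empty] at hcon
  have h1 : o ∩ ball 0 1 ⊆ ball (0 : ℂ) 1 \ Ω := fun w hw =>
    ⟨hw.2, fun hwΩ => by
      have : w ∈ o ∩ Ω := ⟨hw.1, hwΩ⟩
      rw [hcon] at this
      exact this⟩
  have h2 : 0 < volume (o ∩ ball (0 : ℂ) 1) :=
    (ho.inter isOpen_ball).measure_pos volume ⟨z, hzo, hz⟩
  have h3 := measure_mono_null h1 h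
  rw [h3] at h2
  exact lt_irrefl _ h2

theorem frontier_null {Ω : Set ℂ} (ho : IsOpen Ω) (hb : Ω ⊆ ball 0 1)
    (h : volume (ball (0 : ℂ) 1 \ Ω) = 0) : volume (frontier Ω) = 0 := by
  have h1 : frontier Ω ⊆ sphere 0 1 ∪ (ball (0 : ℂ) 1 \ Ω) := by
    intro z hz
    rw [ho.frontier_eq] at hz
    have h2 : z ∈ closedBall (0 : ℂ) 1 :=
      closure_minimal (hb.trans ball_subset_closedBall) isClosed_closedBall hz.1
    by_cases h3 : z ∈ ball (0 : ℂ) 1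
    · exact Or.inr ⟨h3, hz.2⟩
    · refine Or.inl ?_
      rw [mem_sphere]
      rw [mem_closedBall] at h2
      rw [mem_ball, not_lt] at h3
      exact le_antisymm h2 h3
  refine measure_mono_null h1 (measure_union_null ?_ h)
  exact Measure.addHaar_sphere volume 0 1

end Pool.Agent.Run7.h51.LL
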