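import Mathlib

/-!
# Strictly starshaped subsets of the unit disc, and thin tubes

`SS U` says that `U` is an open subset of the unit disc, containing `0`, such that `s · closure U`
is contained in `U` for `0 ≤ s < 1`. `step`: such a set can be enlarged by finitely many thin tubes
around segments starting at `0`, so that it still avoids a given finite set, and covers the unit
disc up to a set of small area.
-/

open Set Metric Filter Topology MeasureTheory
open scoped ENNReal

namespace Pool.Agent.Run7.h51.LL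

/-- Open subsets of the unit disc which are strictly starshaped with respect to `0`. -/
structure SS (U : Set ℂ) : Prop where
  isOpen : IsOpen U
  zero_mem : (0 : ℂ) ∈ U
  sub : U ⊆ ball 0 1
  star : ∀ s : ℝ, 0 ≤ s → s < 1 → ∀ z ∈ closure U, (s : ℂ) * z ∈ U

theorem SS.of_convex {T : Set ℂ} (ho : IsOpen T) (hc : Convex ℝ T) (h0 : (0 : ℂ) ∈ T)
    (hs : T ⊆ ball 0 1) : SS T := by
  refine ⟨ho, h0, hs, fun s hs0 hs1 z hz => ?_⟩
  have h1 := hc.combo_interior_closure_mem_interior (x := 0) (y := z)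
    (by rwa [ho.interior_eq]) hz (a := 1 - s) (b := s) (by linarith) hs0 (by ring)
  rw [ho.interior_eq, smul_zero, zero_add, Complex.real_smul] at h1
  exact h1

theorem SS.union {U V : Set ℂ} (hU : SS U) (hV : SS V) : SS (U ∪ V) := by
  refine ⟨hU.isOpen.union hV.isOpen, Or.inl hU.zero_mem, union_subset hU.sub hV.sub,
    fun s hs0 hs1 z hz => ?_⟩
  rw [closure_union] at hz
  rcases hz with hz | hz
  · exact Or.inl (hU.star s hs0 hs1 z hz)
  · exact Or.inr (hV.star s hs0 hs1 z hz)

theorem SS.union_finset {ι : Type*} {U : Set ℂ} (hU : SS U) (T : ι → Set ℂ) (F : Finset ι)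
    (hT : ∀ i ∈ F, SS (T i)) : SS (U ∪ ⋃ i ∈ F, T i) := by
  classical
  induction F using Finset.induction_on with
  | empty => simpa using hU
  | insert a F ha ih =>
    have h1 := ih fun i hi => hT i (Finset.mem_insert_of_mem hi)
    have h2 := h1.union (hT a (Finset.mem_insert_self a F))
    have h3 : U ∪ ⋃ i ∈ insert a F, T i = (U ∪ ⋃ i ∈ F, T i) ∪ T a := by
      rw [Finset.set_biUnion_insert, union_assoc, union_comm (T a)]
    rw [h3]
    exact h2

theorem SS.mul_mem {U : Set ℂ} (hU : SS U) {s : ℝ} (hs0 : 0 ≤ s) (hs1 : s ≤ 1) {z : ℂ}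
    (hz : z ∈ U) : (s : ℂ) * z ∈ U := by
  rcases hs1.eq_or_lt with rfl | h
  · simpa using hz
  · exact hU.star s hs0 h z (subset_closure hz)

theorem step {U Q : Set ℂ} (hU : SS U) (hQ : Q.Finite) (hQU : Disjoint Q U) {ε : ℝ≥0∞}
    (hε : ε ≠ 0) :
    ∃ U', SS U' ∧ U ⊆ U' ∧ Disjoint Q U' ∧ volume (ball (0 : ℂ) 1 \ U') ≤ ε := by
  have hQ0 : ∀ q ∈ Q, q ≠ 0 := fun q hq h => hQU.le_bot ⟨hq, h ▸ hU.zero_mem⟩
  set L : Set ℂ := ⋃ q ∈ Q, (Submodule.span ℝ {q} : Set ℂ) with hL
  have hLcl : IsClosed L :=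
    hQ.isClosed_biUnion fun q _ => (Submodule.span ℝ {q}).closed_of_finiteDimensional
  have hLnull : volume L = 0 := by
    rw [hL, measure_biUnion_null_iff hQ.countable]
    intro q hq
    refine Measure.addHaar_submodule volume _ ?_
    intro htop
    have h1 : Module.finrank ℝ (Submodule.span ℝ ({q} : Set ℂ)) = 1 :=
      finrank_span_singleton (hQ0 q hq)
    rw [htop, finrank_top, Complex.finrank_real_complex] at h1
    omega
  set V : Set ℂ := ball 0 1 \ L with hV
  have hVo : IsOpen V := isOpen_ball.sdiff hLcl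
  have hVfin : volume V ≠ ∞ :=
    ((measure_mono sdiff_subset).trans_lt measure_ball_lt_top).ne
  obtain ⟨K, hKV, hK, hKε⟩ := hVo.measurableSet.exists_isCompact_sdiff_lt hVfin hε
  -- tubes
  have htube : ∀ z ∈ V, ∃ T : Set ℂ, SS T ∧ z ∈ T ∧ Disjoint Q T := by
    intro z hz
    have hz1 : z ∈ ball (0 : ℂ) 1 := hz.1
    have hsub : segment ℝ (0 : ℂ) z ⊆ ball 0 1 \ Q := by
      intro w hw
      refine ⟨(convex_ball (0 : ℂ) 1).segment_subset (mem_ball_self one_pos) hz1 hw, fun hwQ => ?_⟩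
      obtain ⟨a, b, ha, hb, hab, rfl⟩ := hw
      have hne := hQ0 _ hwQ
      rw [smul_zero, zero_add] at hne hwQ
      have hb0 : b ≠ 0 := by
        rintro rfl
        exact hne (zero_smul _ _)
      refine hz.2 (mem_biUnion hwQ ?_)
      rw [SetLike.mem_coe, Submodule.mem_span_singleton]
      exact ⟨b⁻¹, by rw [smul_smul, inv_mul_cancel₀ hb0, one_smul]⟩
    have hcpt : IsCompact (segment ℝ (0 : ℂ) z) := by
      rw [segment_eq_image]
      exact isCompact_Icc.image (by fun_prop)
    obtain ⟨δ, hδ, hδs⟩ := hcpt.exists_thickening_subset_open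
      (isOpen_ball.sdiff hQ.isClosed) hsub
    refine ⟨thickening δ (segment ℝ (0 : ℂ) z), SS.of_convex isOpen_thickening
      ((convex_segment (0 : ℂ) z).thickening δ)
      (self_subset_thickening hδ _ (left_mem_segment ℝ _ _)) (hδs.trans sdiff_subset),
      self_subset_thickening hδ _ (right_mem_segment ℝ _ _), ?_⟩
    rw [Set.disjoint_left]
    intro q hq hqT
    exact (hδs hqT).2 hq
  choose! T hTS hTz hTQ using htube
  obtain ⟨F, hFK, hF⟩ := hK.elim_nhds_subcover T
    (fun z hz => (hTS z (hKV hz)).isOpen.mem_nhds (hTz z (hKV hz)))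
  refine ⟨U ∪ ⋃ z ∈ F, T z, hU.union_finset T F fun z hz => hTS z (hKV (hFK z hz)),
    subset_union_left, ?_, ?_⟩
  · rw [disjoint_union_right]
    refine ⟨hQU, ?_⟩
    rw [disjoint_iUnion₂_right]
    exact fun z hz => hTQ z (hKV (hFK z hz))
  · have hsub : ball (0 : ℂ) 1 \ (U ∪ ⋃ z ∈ F, T z) ⊆ L ∪ (V \ K) := by
      intro z hz
      by_cases hzL : z ∈ L
      · exact Or.inl hzL
      · exact Or.inr ⟨⟨hz.1, hzL⟩, fun hzK => hz.2 (Or.inr (hF hzK))⟩
    calc volume (ball (0 : ℂ) 1 \ (U ∪ ⋃ z ∈ F, T z)) ≤ volume (L ∪ (V \ K)) := measure_mono hsub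
      _ ≤ volume L + volume (V \ K) := measure_union_le _ _
      _ ≤ ε := by rw [hLnull, zero_add]; exact hKε.le

end Pool.Agent.Run7.h51.LL
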