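import Pool.Agent.Run7.h51.LL.Stage2

/-!
# The weighted spaces: dilations
-/

open Set Metric Filter Topology MeasureTheory
open scoped ENNReal

namespace Pool.Agent.Run7.h51.LL

/-- The measure `W (1 - |φ z|) dx dy` on `Ω`. -/
noncomputable def mu (Ω : Set ℂ) (φ : ℂ → ℂ) (W : ℝ → ℝ) : Measure ℂ :=
  (volume.restrict Ω).withDensity fun z => ENNReal.ofReal (W (1 - ‖φ z‖))

section

variable {W : ℝ → ℝ} {Ω : Set ℂ} {g φ : ℂ → ℂ}

theorem RM.mem_Ioc (hR : RM Ω g φ) {z : ℂ} (hz : z ∈ Ω) :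
    1 - ‖φ z‖ ∈ Ioc (0 : ℝ) 1 := by
  have h1 : ‖φ z‖ < 1 := mem_ball_zero_iff.1 (hR.φm hz)
  exact ⟨by linarith, by linarith [norm_nonneg (φ z)]⟩

theorem weight_aemeasurable (hW : IsW W) (hΩ : IsOpen Ω) (hR : RM Ω g φ) :
    AEMeasurable (fun z => ENNReal.ofReal (W (1 - ‖φ z‖))) (volume.restrict Ω) := by
  -- a monotone function on the line which agrees with `W` on `(0, 1]`
  let V : ℝ → ℝ := fun t => if t ≤ 0 then 0 else W (min t 1)
  have hVmono : Monotone V := by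
    intro s t hst
    simp only [V]
    split_ifs with h1 h2 h2
    · exact le_rfl
    · push Not at h2
      exact (hW.pos _ ⟨lt_min h2 one_pos, min_le_right _ _⟩).le
    · push Not at h1
      linarith
    · push Not at h1 h2
      exact hW.mono ⟨lt_min h1 one_pos, min_le_right _ _⟩ ⟨lt_min h2 one_pos, min_le_right _ _⟩
        (min_le_min_right _ hst)
  have h1 : AEMeasurable (fun z => 1 - ‖φ z‖) (volume.restrict Ω) :=
    (continuousOn_const.sub hR.hφ.continuousOn.norm).aemeasurable hΩ.measurableSet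
  have h2 : AEMeasurable (fun z => ENNReal.ofReal (V (1 - ‖φ z‖))) (volume.restrict Ω) :=
    (hVmono.measurable.comp_aemeasurable h1).ennreal_ofReal
  refine h2.congr ?_
  filter_upwards [ae_restrict_mem hΩ.measurableSet] with z hz
  have h3 := hR.mem_Ioc hz
  simp only [V]
  rw [if_neg (not_le.2 h3.1), min_eq_left h3.2]

theorem lintegral_mu (hW : IsW W) (hΩ : IsOpen Ω) (hR : RM Ω g φ) (h : ℂ → ℝ≥0∞) :
    ∫⁻ z, h z ∂(mu Ω φ W) = ∫⁻ z in Ω, h z * ENNReal.ofReal (W (1 - ‖φ z‖)) := by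
  unfold mu
  rw [lintegral_withDensity_eq_lintegral_mul_non_measurable₀ _ (weight_aemeasurable hW hΩ hR)
    (ae_of_all _ fun z => ENNReal.ofReal_lt_top)]
  refine lintegral_congr fun z => ?_
  rw [Pi.mul_apply, mul_comm]

theorem eLpNorm_mu (hW : IsW W) (hΩ : IsOpen Ω) (hR : RM Ω g φ) {p : ℝ≥0∞} (hp : 1 ≤ p)
    (hp' : p ≠ ∞) (h : ℂ → ℂ) :
    eLpNorm h p (mu Ω φ W)
      = (∫⁻ z in Ω, ‖h z‖ₑ ^ p.toReal * ENNReal.ofReal (W (1 - ‖φ z‖))) ^ (1 / p.toReal) := by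
  rw [eLpNorm_eq_lintegral_rpow_enorm_toReal (by positivity) hp', lintegral_mu hW hΩ hR]

theorem mu_univ (hW : IsW W) (hΩ : IsOpen Ω) (hΩ1 : Ω ⊆ ball 0 1) (hR : RM Ω g φ) :
    mu Ω φ W univ < ∞ := by
  have h1 := lintegral_mu hW hΩ hR fun _ => 1
  rw [lintegral_one] at h1
  rw [h1]
  calc ∫⁻ z in Ω, 1 * ENNReal.ofReal (W (1 - ‖φ z‖))
      ≤ ∫⁻ z in Ω, ENNReal.ofReal (W 1) := by
        refine setLIntegral_mono' hΩ.measurableSet fun z hz => ?_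
        rw [one_mul]
        exact ENNReal.ofReal_le_ofReal (hW.mono (hR.mem_Ioc hz) ⟨one_pos, le_rfl⟩
          (hR.mem_Ioc hz).2)
    _ = ENNReal.ofReal (W 1) * volume Ω := by rw [setLIntegral_const]
    _ < ∞ := ENNReal.mul_lt_top ENNReal.ofReal_lt_top
        ((measure_mono hΩ1).trans_lt measure_ball_lt_top)

theorem aesm_mu (hΩ : IsOpen Ω) {h : ℂ → ℂ} (hh : ContinuousOn h Ω) :
    AEStronglyMeasurable h (mu Ω φ W) :=
  (hh.aestronglyMeasurable hΩ.measurableSet).mono_ac (withDensity_absolutelyContinuous _ _)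

/-- Dilations act on the weighted spaces. -/
theorem dilation_le (hW : IsW W) (hΩ : IsOpen Ω) (hR : RM Ω g φ)
    (hs : ∀ s ∈ Icc (0 : ℝ) 1, ∀ z ∈ Ω, (s : ℂ) * z ∈ Ω) {r : ℝ} (hr0 : 1 / 8 ≤ r) (hr1 : r ≤ 1)
    {q : ℝ} (h : ℂ → ℂ) :
    ∫⁻ z in Ω, ‖h ((r : ℂ) * z)‖ₑ ^ q * ENNReal.ofReal (W (1 - ‖φ z‖))
      ≤ 64 * ∫⁻ z in Ω, ‖h z‖ₑ ^ q * ENNReal.ofReal (W (1 - ‖φ z‖)) := by
  have hrpos : 0 < r := by linarith
  have hr' : (r : ℝ) ∈ Icc (0 : ℝ) 1 := ⟨hrpos.le, hr1⟩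
  -- the function to which the change of variables is applied
  let F : ℂ → ℝ≥0∞ := Ω.indicator fun u => ‖h u‖ₑ ^ q * ENNReal.ofReal (W (1 - ‖φ u‖))
  have h1 : ∀ z, Ω.indicator (fun z => ‖h ((r : ℂ) * z)‖ₑ ^ q
      * ENNReal.ofReal (W (1 - ‖φ z‖))) z ≤ F (r • z) := by
    intro z
    by_cases hz : z ∈ Ω
    · have hz' : (r : ℂ) * z ∈ Ω := hs r hr' z hz
      rw [indicator_of_mem hz]
      simp only [F, Complex.real_smul]
      rw [indicator_of_mem hz']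
      gcongr
      refine hW.mono (hR.mem_Ioc hz) (hR.mem_Ioc hz') ?_
      have := hR.norm_mono hs hr' hz
      linarith
    · rw [indicator_of_notMem hz]
      exact zero_le
  have h2 : ∫⁻ z, F (r • z) = ENNReal.ofReal ((r ^ 2)⁻¹) * ∫⁻ z, F z := by
    have h3 := Measure.map_addHaar_smul (volume : Measure ℂ) hrpos.ne'
    have h4 : MeasurableEmbedding (fun z : ℂ => r • z) :=
      (Homeomorph.smulOfNeZero r hrpos.ne').measurableEmbedding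
    have h5 := h4.lintegral_map F (μ := volume)
    rw [h3, Complex.finrank_real_complex, abs_of_pos (by positivity)] at h5
    rw [← h5, lintegral_smul_measure, smul_eq_mul]
  have h6 : ENNReal.ofReal ((r ^ 2)⁻¹) ≤ 64 := by
    have h7 : (r ^ 2)⁻¹ ≤ 64 := by
      rw [inv_le_comm₀ (by positivity) (by norm_num)]
      nlinarith
    calc ENNReal.ofReal ((r ^ 2)⁻¹) ≤ ENNReal.ofReal 64 := ENNReal.ofReal_le_ofReal h7
      _ = 64 := by norm_num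
  calc ∫⁻ z in Ω, ‖h ((r : ℂ) * z)‖ₑ ^ q * ENNReal.ofReal (W (1 - ‖φ z‖))
      = ∫⁻ z, Ω.indicator (fun z => ‖h ((r : ℂ) * z)‖ₑ ^ q
          * ENNReal.ofReal (W (1 - ‖φ z‖))) z := (lintegral_indicator hΩ.measurableSet _).symm
    _ ≤ ∫⁻ z, F (r • z) := lintegral_mono h1
    _ = ENNReal.ofReal ((r ^ 2)⁻¹) * ∫⁻ z, F z := h2
    _ ≤ 64 * ∫⁻ z, F z := by gcongr
    _ = 64 * ∫⁻ z in Ω, ‖h z‖ₑ ^ q * ENNReal.ofReal (W (1 - ‖φ z‖)) := by
        rw [lintegral_indicator hΩ.measurableSet]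

theorem dilation_eLpNorm (hW : IsW W) (hΩ : IsOpen Ω) (hR : RM Ω g φ)
    (hs : ∀ s ∈ Icc (0 : ℝ) 1, ∀ z ∈ Ω, (s : ℂ) * z ∈ Ω) {r : ℝ} (hr0 : 1 / 8 ≤ r) (hr1 : r ≤ 1)
    {p : ℝ≥0∞} (hp : 1 ≤ p) (hp' : p ≠ ∞) (h : ℂ → ℂ) :
    eLpNorm (fun z => h ((r : ℂ) * z)) p (mu Ω φ W) ≤ 64 * eLpNorm h p (mu Ω φ W) := by
  have hq : 1 ≤ p.toReal := by
    rw [← ENNReal.toReal_one]
    exact ENNReal.toReal_mono hp' hp
  rw [eLpNorm_mu hW hΩ hR hp hp', eLpNorm_mu hW hΩ hR hp hp']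
  calc (∫⁻ z in Ω, ‖h ((r : ℂ) * z)‖ₑ ^ p.toReal * ENNReal.ofReal (W (1 - ‖φ z‖)))
        ^ (1 / p.toReal)
      ≤ (64 * ∫⁻ z in Ω, ‖h z‖ₑ ^ p.toReal * ENNReal.ofReal (W (1 - ‖φ z‖)))
        ^ (1 / p.toReal) := by
        gcongr
        exact dilation_le hW hΩ hR hs hr0 hr1 h
    _ = 64 ^ (1 / p.toReal) * (∫⁻ z in Ω, ‖h z‖ₑ ^ p.toReal * ENNReal.ofReal (W (1 - ‖φ z‖)))
        ^ (1 / p.toReal) := ENNReal.mul_rpow_of_nonneg _ _ (by positivity)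
    _ ≤ 64 * (∫⁻ z in Ω, ‖h z‖ₑ ^ p.toReal * ENNReal.ofReal (W (1 - ‖φ z‖)))
        ^ (1 / p.toReal) := by
        gcongr
        calc (64 : ℝ≥0∞) ^ (1 / p.toReal) ≤ 64 ^ (1 : ℝ) := by
              refine ENNReal.rpow_le_rpow_of_exponent_le (by norm_num) ?_
              rw [div_le_one (by linarith)]
              exact hq
          _ = 64 := ENNReal.rpow_one _

end

end Pool.Agent.Run7.h51.LL
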