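import Pool.Agent.Run7.h51.LL.Basic

/-!
# A uniform form of Runge's theorem for starshaped compact sets

If `K` is compact, starshaped with respect to `0` and contained in the open set `O` and in the
closed unit disc, then for every `ε > 0` there is `M` such that every holomorphic function on `O`
bounded by `1` is within `ε` on `K` of a polynomial bounded by `M` on the unit disc. Proof: analytic
continuation in `s` of the element `(f, z) ↦ f (s z)` of the space of bounded functions modulo the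
closure of the polynomials.
-/

open Set Metric Filter Topology
open scoped ENNReal

namespace Pool.Agent.Run7.h51.LL

/-- The holomorphic functions on `O` bounded by `1`. -/
structure Fam (O : Set ℂ) : Type where
  /-- the function -/
  f : ℂ → ℂ
  diff : DifferentiableOn ℂ f O
  bdd : ∀ z ∈ O, ‖f z‖ ≤ 1

/-- Bounded functions of a member of the family and a point of `K`. -/
abbrev Bd (O K : Set ℂ) : Type := lp (fun _ : Fam O × K => ℂ) ∞

/-- The functions which are given by polynomials with bounds. -/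
def polyMod (O K : Set ℂ) : Submodule ℂ (Bd O K) where
  carrier := {g | ∃ M : ℝ, ∀ f : Fam O, ∃ P : Polynomial ℂ, (∀ z : K, P.eval (z : ℂ) = g (f, z)) ∧
    ∀ z : ℂ, ‖z‖ ≤ 1 → ‖P.eval z‖ ≤ M}
  zero_mem' := ⟨0, fun f => ⟨0, fun z => by simp, fun z _ => by simp⟩⟩
  add_mem' := by
    rintro g h ⟨M, hM⟩ ⟨N, hN⟩
    refine ⟨M + N, fun f => ?_⟩
    obtain ⟨P, hP1, hP2⟩ := hM f
    obtain ⟨R, hR1, hR2⟩ := hN f
    refine ⟨P + R, fun z => ?_, fun z hz => ?_⟩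
    · rw [Polynomial.eval_add, hP1, hR1]; rfl
    · rw [Polynomial.eval_add]
      exact (norm_add_le _ _).trans (add_le_add (hP2 z hz) (hR2 z hz))
  smul_mem' := by
    rintro c g ⟨M, hM⟩
    refine ⟨‖c‖ * M, fun f => ?_⟩
    obtain ⟨P, hP1, hP2⟩ := hM f
    refine ⟨Polynomial.C c * P, fun z => ?_, fun z hz => ?_⟩
    · rw [Polynomial.eval_mul, Polynomial.eval_C, hP1]; rfl
    · rw [Polynomial.eval_mul, Polynomial.eval_C, norm_mul]
      exact mul_le_mul_of_nonneg_left (hP2 z hz) (norm_nonneg _)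

/-- The element `(f, z) ↦ f (s z)`, for `s` in `V`. -/
noncomputable def Phi (O K V : Set ℂ) (hV : ∀ s ∈ V, ∀ z ∈ K, s * z ∈ O) (s : ℂ) : Bd O K :=
  ⟨fun i => V.indicator (fun s => i.1.f (s * (i.2 : ℂ))) s, memℓp_infty ⟨1, by
    rintro _ ⟨i, rfl⟩
    by_cases hs : s ∈ V
    · simp only [indicator_of_mem hs]
      exact i.1.bdd _ (hV s hs _ i.2.2)
    · simp only [indicator_of_notMem hs, norm_zero]
      exact zero_le_one⟩⟩

theorem Phi_apply {O K V : Set ℂ} (hV : ∀ s ∈ V, ∀ z ∈ K, s * z ∈ O) {s : ℂ} (hs : s ∈ V)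
    (i : Fam O × K) : Phi O K V hV s i = i.1.f (s * (i.2 : ℂ)) := by
  have h1 : Phi O K V hV s i = V.indicator (fun s => i.1.f (s * (i.2 : ℂ))) s := rfl
  rw [h1, indicator_of_mem hs]

theorem Phi_differentiableOn {O K V : Set ℂ} (hV : ∀ s ∈ V, ∀ z ∈ K, s * z ∈ O) (hVo : IsOpen V) :
    DifferentiableOn ℂ (Phi O K V hV) V := by
  intro s₀ hs₀
  obtain ⟨δ, hδ, hδV⟩ := Metric.isOpen_iff.1 hVo s₀ hs₀
  have hd : ∀ i : Fam O × K, DifferentiableOn ℂ (fun s => i.1.f (s * (i.2 : ℂ))) (ball s₀ δ) := by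
    intro i
    refine i.1.diff.comp (by fun_prop) ?_
    intro s hs
    exact hV s (hδV hs) _ i.2.2
  have hb : ∀ i : Fam O × K, ∀ s ∈ ball s₀ δ, ‖i.1.f (s * (i.2 : ℂ))‖ ≤ 1 := by
    intro i s hs
    exact i.1.bdd _ (hV s (hδV hs) _ i.2.2)
  have hD : ∀ i : Fam O × K, ‖deriv (fun s => i.1.f (s * (i.2 : ℂ))) s₀‖ ≤ 2 / δ := by
    intro i
    refine Complex.norm_deriv_le_div_of_mapsTo_ball (hd i) (fun w hw => ?_) hδ
    rw [mem_closedBall, dist_eq_norm]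
    calc ‖i.1.f (w * (i.2 : ℂ)) - i.1.f (s₀ * (i.2 : ℂ))‖
        ≤ ‖i.1.f (w * (i.2 : ℂ))‖ + ‖i.1.f (s₀ * (i.2 : ℂ))‖ := norm_sub_le _ _
      _ ≤ 2 := by linarith [hb i w hw, hb i s₀ (mem_ball_self hδ)]
  let D : Bd O K := ⟨fun i => deriv (fun s => i.1.f (s * (i.2 : ℂ))) s₀, memℓp_infty ⟨2 / δ, by
    rintro _ ⟨i, rfl⟩
    exact hD i⟩⟩
  have hmain : ∀ s ∈ ball s₀ δ,
      ‖Phi O K V hV s - Phi O K V hV s₀ - (s - s₀) • D‖ ≤ 4 * (‖s - s₀‖ / δ) ^ 2 := by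
    intro s hs
    refine lp.norm_le_of_forall_le (by positivity) fun i => ?_
    have h1 := taylor2 hδ (hd i) (hb i) hs
    rw [mul_one] at h1
    have h2 : (Phi O K V hV s - Phi O K V hV s₀ - (s - s₀) • D) i
        = i.1.f (s * (i.2 : ℂ)) - i.1.f (s₀ * (i.2 : ℂ))
          - (s - s₀) * deriv (fun s => i.1.f (s * (i.2 : ℂ))) s₀ := by
      rw [lp.coeFn_sub, lp.coeFn_sub, lp.coeFn_smul]
      simp only [Pi.sub_apply, Pi.smul_apply, smul_eq_mul]
      rw [Phi_apply hV (hδV hs), Phi_apply hV hs₀]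
    rw [h2]
    exact h1
  have hder : HasDerivAt (Phi O K V hV) D s₀ := by
    rw [hasDerivAt_iff_isLittleO, Asymptotics.isLittleO_iff]
    intro c hc
    have hmin : 0 < min δ (c * δ ^ 2 / 4) := lt_min hδ (by positivity)
    filter_upwards [ball_mem_nhds s₀ hmin] with s hs
    have hs1 : s ∈ ball s₀ δ := ball_subset_ball (min_le_left _ _) hs
    have hs2 : ‖s - s₀‖ ≤ c * δ ^ 2 / 4 := by
      rw [← dist_eq_norm]
      exact (mem_ball.1 hs).le.trans (min_le_right _ _)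
    refine (hmain s hs1).trans ?_
    have h3 : 4 * (‖s - s₀‖ / δ) ^ 2 = (4 / δ ^ 2 * ‖s - s₀‖) * ‖s - s₀‖ := by
      field_simp
    rw [h3]
    refine mul_le_mul_of_nonneg_right ?_ (norm_nonneg _)
    calc 4 / δ ^ 2 * ‖s - s₀‖ ≤ 4 / δ ^ 2 * (c * δ ^ 2 / 4) := by gcongr
      _ = c := by field_simp
  exact hder.differentiableAt.differentiableWithinAt

theorem Phi_small {O K V : Set ℂ} (hV : ∀ s ∈ V, ∀ z ∈ K, s * z ∈ O) {r : ℝ} (hr : 0 < r)
    (hrO : ball (0 : ℂ) r ⊆ O) (hK1 : K ⊆ closedBall 0 1) {s : ℂ} (hsV : s ∈ V)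
    (hs : ‖s‖ ≤ r / 4) : Phi O K V hV s ∈ (polyMod O K).topologicalClosure := by
  have hcb : closedBall (0 : ℂ) (r / 2) ⊆ ball 0 r := closedBall_subset_ball (by linarith)
  have hcoef : ∀ (f : Fam O) (n : ℕ),
      ‖(n.factorial : ℂ)⁻¹ * iteratedDeriv n f.f 0‖ ≤ (1 / (r / 2)) ^ n := by
    intro f n
    have h1 : DiffContOnCl ℂ f.f (ball 0 (r / 2)) :=
      (f.diff.mono hrO).diffContOnCl_ball hcb
    have h2 := Complex.norm_iteratedDeriv_le_of_forall_mem_sphere_norm_le n (by positivity) h1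
      (C := 1) (fun z hz => f.bdd z (hrO (hcb (sphere_subset_closedBall hz))))
    rw [norm_mul, norm_inv, Complex.norm_natCast]
    have h3 : (0 : ℝ) < n.factorial := by positivity
    calc (n.factorial : ℝ)⁻¹ * ‖iteratedDeriv n f.f 0‖
        ≤ (n.factorial : ℝ)⁻¹ * (n.factorial * 1 / (r / 2) ^ n) := by gcongr
      _ = (1 / (r / 2)) ^ n := by
          rw [one_div, inv_pow, mul_one, ← mul_div_assoc, inv_mul_cancel₀ h3.ne', one_div]
  have hterm : ∀ (f : Fam O) (n : ℕ) (z : ℂ), ‖z‖ ≤ 1 →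
      ‖(n.factorial : ℂ)⁻¹ * iteratedDeriv n f.f 0 * s ^ n * z ^ n‖ ≤ (1 / 2) ^ n := by
    intro f n z hz
    rw [norm_mul, norm_mul, norm_pow, norm_pow]
    calc ‖(n.factorial : ℂ)⁻¹ * iteratedDeriv n f.f 0‖ * ‖s‖ ^ n * ‖z‖ ^ n
        ≤ (1 / (r / 2)) ^ n * (r / 4) ^ n * 1 ^ n := by
          gcongr
          exact hcoef f n
      _ = (1 / 2) ^ n := by
          rw [← mul_pow, ← mul_pow]
          congr 1
          field_simp
          ring
  let P : ℕ → Fam O → Polynomial ℂ := fun m f => ∑ n ∈ Finset.range m,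
    Polynomial.C ((n.factorial : ℂ)⁻¹ * iteratedDeriv n f.f 0 * s ^ n) * Polynomial.X ^ n
  have hPe : ∀ m f z, (P m f).eval z = ∑ n ∈ Finset.range m,
      (n.factorial : ℂ)⁻¹ * iteratedDeriv n f.f 0 * s ^ n * z ^ n := by
    intro m f z
    simp only [P, Polynomial.eval_finsetSum, Polynomial.eval_mul, Polynomial.eval_C,
      Polynomial.eval_pow, Polynomial.eval_X]
  have hPb : ∀ m f z, ‖z‖ ≤ 1 → ‖(P m f).eval z‖ ≤ m := by
    intro m f z hz
    rw [hPe]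
    refine (norm_sum_le _ _).trans ?_
    calc ∑ n ∈ Finset.range m, ‖(n.factorial : ℂ)⁻¹ * iteratedDeriv n f.f 0 * s ^ n * z ^ n‖
        ≤ ∑ n ∈ Finset.range m, (1 : ℝ) := by
          refine Finset.sum_le_sum fun n _ => (hterm f n z hz).trans ?_
          exact pow_le_one₀ (by norm_num) (by norm_num)
      _ = m := by simp
  let g : ℕ → Bd O K := fun m => ⟨fun i => (P m i.1).eval (i.2 : ℂ), memℓp_infty ⟨m, by
    rintro _ ⟨i, rfl⟩
    exact hPb m i.1 _ (mem_closedBall_zero_iff.1 (hK1 i.2.2))⟩⟩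
  have hgm : ∀ m, g m ∈ polyMod O K := fun m =>
    ⟨m, fun f => ⟨P m f, fun z => rfl, fun z hz => hPb m f z hz⟩⟩
  have hdist : ∀ m, ‖Phi O K V hV s - g m‖ ≤ 2 * (1 / 2) ^ m := by
    intro m
    refine lp.norm_le_of_forall_le (by positivity) fun i => ?_
    rw [lp.coeFn_sub]
    simp only [Pi.sub_apply]
    rw [Phi_apply hV hsV]
    have hz1 : ‖(i.2 : ℂ)‖ ≤ 1 := mem_closedBall_zero_iff.1 (hK1 i.2.2)
    have hmem : s * (i.2 : ℂ) ∈ ball (0 : ℂ) r := by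
      rw [mem_ball_zero_iff, norm_mul]
      calc ‖s‖ * ‖(i.2 : ℂ)‖ ≤ (r / 4) * 1 := by gcongr
        _ < r := by linarith
    have hsum := Complex.hasSum_taylorSeries_on_ball (i.1.diff.mono hrO) hmem
    have hsum' : HasSum (fun n : ℕ => (n.factorial : ℂ)⁻¹ * iteratedDeriv n i.1.f 0 * s ^ n
        * (i.2 : ℂ) ^ n) (i.1.f (s * (i.2 : ℂ))) := by
      have he : (fun n : ℕ => (n.factorial : ℂ)⁻¹ * iteratedDeriv n i.1.f 0 * s ^ n
          * (i.2 : ℂ) ^ n) = fun n : ℕ => (n.factorial : ℂ)⁻¹ • (s * (i.2 : ℂ) - 0) ^ n •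
          iteratedDeriv n i.1.f 0 := by
        funext n
        rw [smul_eq_mul, smul_eq_mul, sub_zero, mul_pow]
        ring
      rw [he]
      exact hsum
    have h1 := norm_sub_le_of_geometric_bound_of_hasSum (r := 1 / 2) (C := 1) (by norm_num)
      (fun n => by simpa using hterm i.1 n (i.2 : ℂ) hz1) hsum' m
    have h2 : g m i = ∑ n ∈ Finset.range m,
      (n.factorial : ℂ)⁻¹ * iteratedDeriv n i.1.f 0 * s ^ n * (i.2 : ℂ) ^ n := hPe m i.1 _
    rw [h2, norm_sub_rev]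
    refine h1.trans (le_of_eq ?_)
    ring
  rw [← SetLike.mem_coe, Submodule.topologicalClosure_coe, Metric.mem_closure_iff]
  intro ε hε
  have hlim : Tendsto (fun m : ℕ => 2 * (1 / 2 : ℝ) ^ m) atTop (𝓝 0) := by
    have := (tendsto_pow_atTop_nhds_zero_of_lt_one (r := (1 / 2 : ℝ)) (by norm_num)
      (by norm_num)).const_mul 2
    simpa using this
  obtain ⟨m, hm⟩ := (hlim.eventually (gt_mem_nhds hε)).exists
  exact ⟨g m, hgm m, by rw [dist_eq_norm]; exact (hdist m).trans_lt hm⟩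

theorem unif_runge {O K : Set ℂ} (hO : IsOpen O) (h0 : (0 : ℂ) ∈ O) (hK : IsCompact K)
    (hKO : K ⊆ O) (hKs : ∀ s ∈ Icc (0 : ℝ) 1, ∀ z ∈ K, (s : ℂ) * z ∈ K) (hK1 : K ⊆ closedBall 0 1)
    {ε : ℝ} (hε : 0 < ε) :
    ∃ M : ℝ, ∀ f : ℂ → ℂ, DifferentiableOn ℂ f O → (∀ z ∈ O, ‖f z‖ ≤ 1) →
      ∃ P : Polynomial ℂ, (∀ z ∈ K, ‖P.eval z - f z‖ ≤ ε) ∧ ∀ z, ‖z‖ ≤ 1 → ‖P.eval z‖ ≤ M := by
  obtain ⟨δ, hδ, hδO⟩ := hK.exists_thickening_subset_open hO hKO
  obtain ⟨r, hr, hrO⟩ := Metric.isOpen_iff.1 hO 0 h0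
  set V : Set ℂ := thickening δ (segment ℝ (0 : ℂ) 1) with hVdef
  have hVo : IsOpen V := isOpen_thickening
  have hVc : IsPreconnected V := ((convex_segment (0 : ℂ) 1).thickening δ).isPreconnected
  have hseg : ∀ w ∈ segment ℝ (0 : ℂ) 1, ∃ t ∈ Icc (0 : ℝ) 1, w = (t : ℂ) := by
    rintro w ⟨a, b, ha, hb, hab, rfl⟩
    exact ⟨b, ⟨hb, by linarith⟩, by simp⟩
  have hV : ∀ s ∈ V, ∀ z ∈ K, s * z ∈ O := by
    intro s hs z hz
    obtain ⟨w, hw, hws⟩ := mem_thickening_iff.1 hs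
    obtain ⟨t, ht, rfl⟩ := hseg w hw
    refine hδO (mem_thickening_iff.2 ⟨(t : ℂ) * z, hKs t ht z hz, ?_⟩)
    have hz1 : ‖z‖ ≤ 1 := mem_closedBall_zero_iff.1 (hK1 hz)
    rw [dist_eq_norm, ← sub_mul, norm_mul]
    calc ‖s - t‖ * ‖z‖ ≤ ‖s - t‖ * 1 := by gcongr
      _ < δ := by rw [mul_one, ← dist_eq_norm]; exact hws
  have h0V : (0 : ℂ) ∈ V := self_subset_thickening hδ _ (left_mem_segment ℝ _ _)
  have h1V : (1 : ℂ) ∈ V := self_subset_thickening hδ _ (right_mem_segment ℝ _ _)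
  set S := (polyMod O K).topologicalClosure with hS
  have hScl : IsClosed (S : Set (Bd O K)) := Submodule.isClosed_topologicalClosure _
  have hdiff := Phi_differentiableOn (K := K) hV hVo
  have han : AnalyticOnNhd ℂ (fun s => S.mkQL (Phi O K V hV s)) V := by
    refine DifferentiableOn.analyticOnNhd ?_ hVo
    exact S.mkQL.differentiable.comp_differentiableOn hdiff
  have hev : (fun s => S.mkQL (Phi O K V hV s)) =ᶠ[𝓝 0] 0 := by
    have h1 : ∀ᶠ s in 𝓝 (0 : ℂ), s ∈ V := hVo.mem_nhds h0V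
    have h2 : ∀ᶠ s in 𝓝 (0 : ℂ), ‖s‖ ≤ r / 4 := by
      filter_upwards [closedBall_mem_nhds (0 : ℂ) (show 0 < r / 4 by positivity)] with s hs
      exact mem_closedBall_zero_iff.1 hs
    filter_upwards [h1, h2] with s hs1 hs2
    have h3 := Phi_small hV hr hrO hK1 hs1 hs2
    show S.mkQL (Phi O K V hV s) = 0
    rw [Submodule.mkQL_apply]
    exact (Submodule.Quotient.mk_eq_zero S).2 h3
  have hz := han.eqOn_zero_of_preconnected_of_eventuallyEq_zero hVc h0V hev h1V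
  have hmem : Phi O K V hV 1 ∈ S := by
    have : S.mkQL (Phi O K V hV 1) = 0 := hz
    rw [Submodule.mkQL_apply] at this
    exact (Submodule.Quotient.mk_eq_zero S).1 this
  rw [hS, ← SetLike.mem_coe, Submodule.topologicalClosure_coe, Metric.mem_closure_iff] at hmem
  obtain ⟨g, ⟨M, hM⟩, hg⟩ := hmem ε hε
  refine ⟨M, fun f hf1 hf2 => ?_⟩
  obtain ⟨P, hP1, hP2⟩ := hM ⟨f, hf1, hf2⟩
  refine ⟨P, fun z hz => ?_, hP2⟩
  have h4 := hP1 ⟨z, hz⟩
  simp only at h4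
  rw [h4]
  have h5 : ‖(Phi O K V hV 1 - g) (⟨f, hf1, hf2⟩, ⟨z, hz⟩)‖ ≤ ‖Phi O K V hV 1 - g‖ :=
    lp.norm_apply_le_norm (by simp) _ _
  rw [lp.coeFn_sub] at h5
  simp only [Pi.sub_apply] at h5
  rw [Phi_apply hV h1V] at h5
  simp only [one_mul] at h5
  rw [norm_sub_rev]
  rw [dist_eq_norm] at hg
  exact h5.trans hg.le

end Pool.Agent.Run7.h51.LL
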