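import Pool.Agent.Helper405.Riemann
import Pool.Agent.H402R2.SubMean
import Pool.Agent.Run7.h51.LL.Runge
import Pool.Agent.Run7.h51.LL.Geom

/-!
# One stage of the construction

For a strictly starshaped set `U`, a weight `W` and a number `n` there is a finite set `Q` outside
of `U` such that for every domain `Ω ⊇ U` of the unit disc which avoids `Q`, every holomorphic
function on `Ω` of weighted norm at most `1` is, after a dilation, close to a polynomial on (a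
dilation of) `U`, and the weighted norm of this polynomial on the rest of `Ω` is small.
-/

open Set Metric Filter Topology MeasureTheory
open scoped ENNReal

namespace Pool.Agent.Run7.h51.LL

/-- The weights: positive functions on `(0, 1]`, nondecreasing, with limit `0` at `0`. -/
structure IsW (W : ℝ → ℝ) : Prop where
  pos : ∀ t ∈ Ioc (0 : ℝ) 1, 0 < W t
  mono : MonotoneOn W (Ioc 0 1)
  lim : Tendsto W (𝓝[>] 0) (𝓝 0)

/-- `φ` is a conformal map of `Ω` onto the unit disc with `φ 0 = 0`, and `g` is its inverse. -/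
structure RM (Ω : Set ℂ) (g φ : ℂ → ℂ) : Prop where
  hg : DifferentiableOn ℂ g (ball 0 1)
  gm : MapsTo g (ball 0 1) Ω
  hφ : DifferentiableOn ℂ φ Ω
  φm : MapsTo φ Ω (ball 0 1)
  g0 : g 0 = 0
  gφ : ∀ z ∈ Ω, g (φ z) = z
  φg : ∀ z ∈ ball (0 : ℂ) 1, φ (g z) = z

theorem RM.φ0 {Ω : Set ℂ} {g φ : ℂ → ℂ} (h : RM Ω g φ) : φ 0 = 0 := by
  have := h.φg 0 (mem_ball_self one_pos)
  rwa [h.g0] at this

theorem starshaped_simply {Ω : Set ℂ} (h0 : (0 : ℂ) ∈ Ω)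
    (hs : ∀ s ∈ Icc (0 : ℝ) 1, ∀ z ∈ Ω, (s : ℂ) * z ∈ Ω) : IsSimplyConnected Ω := by
  have h1 : StarConvex ℝ (0 : ℂ) Ω := by
    rw [starConvex_zero_iff]
    intro z hz a ha0 ha1
    rw [Complex.real_smul]
    exact hs a ⟨ha0, ha1⟩ z hz
  have := h1.contractibleSpace ⟨0, h0⟩
  exact SimplyConnectedSpace.ofContractible Ω

theorem exists_RM {Ω : Set ℂ} (ho : IsOpen Ω) (h0 : (0 : ℂ) ∈ Ω)
    (hs : ∀ s ∈ Icc (0 : ℝ) 1, ∀ z ∈ Ω, (s : ℂ) * z ∈ Ω) (hb : Ω ⊆ ball 0 1) :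
    ∃ g φ, RM Ω g φ := by
  have hne : Ω ≠ univ := by
    rintro rfl
    have := hb (mem_univ (1 : ℂ))
    simp at this
  obtain ⟨g, φ, h1, h2, -, h4, h5, h6, h7, h8⟩ :=
    Helper405.Riemann.riemann_inv ho (starshaped_simply h0 hs) hne h0
  exact ⟨g, φ, h1, h2.mapsTo, h5, h6, h4, h7, h8⟩

/-- Comparison of the conformal maps of two domains (Schwarz lemma). -/
theorem RM.norm_le {U Ω : Set ℂ} {gU φU g φ : ℂ → ℂ} (hU : RM U gU φU) (h : RM Ω g φ)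
    (hUΩ : U ⊆ Ω) {z : ℂ} (hz : z ∈ U) : ‖φ z‖ ≤ ‖φU z‖ := by
  have h1 : DifferentiableOn ℂ (fun w => φ (gU w)) (ball 0 1) :=
    h.hφ.comp hU.hg fun w hw => hUΩ (hU.gm hw)
  have h2 : MapsTo (fun w => φ (gU w)) (ball 0 1) (closedBall 0 1) := fun w hw =>
    ball_subset_closedBall (h.φm (hUΩ (hU.gm hw)))
  have h3 := Complex.norm_le_norm_of_mapsTo_ball h1 h2 (by simp only [hU.g0, h.φ0])
    (mem_ball_zero_iff.1 (hU.φm hz))
  simpa only [hU.gφ z hz] using h3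

/-- The modulus of the conformal map of a starshaped domain increases along rays. -/
theorem RM.norm_mono {Ω : Set ℂ} {g φ : ℂ → ℂ} (h : RM Ω g φ)
    (hs : ∀ s ∈ Icc (0 : ℝ) 1, ∀ z ∈ Ω, (s : ℂ) * z ∈ Ω) {s : ℝ} (hs' : s ∈ Icc (0 : ℝ) 1)
    {z : ℂ} (hz : z ∈ Ω) : ‖φ ((s : ℂ) * z)‖ ≤ ‖φ z‖ := by
  have h1 : DifferentiableOn ℂ (fun w => φ ((s : ℂ) * g w)) (ball 0 1) :=
    h.hφ.comp (h.hg.const_mul _) fun w hw => hs s hs' _ (h.gm hw)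
  have h2 : MapsTo (fun w => φ ((s : ℂ) * g w)) (ball 0 1) (closedBall 0 1) := fun w hw =>
    ball_subset_closedBall (h.φm (hs s hs' _ (h.gm hw)))
  have h3 := Complex.norm_le_norm_of_mapsTo_ball h1 h2 (by simp only [h.g0, mul_zero, h.φ0])
    (mem_ball_zero_iff.1 (h.φm hz))
  simpa only [h.gφ z hz] using h3

theorem point_bound {Ω : Set ℂ} {W : ℝ → ℝ} {φ f : ℂ → ℂ}
    (hf : DifferentiableOn ℂ f Ω) {z : ℂ} {δ w₀ p : ℝ} (hδ : 0 < δ) (hw₀ : 0 < w₀) (hp : 1 ≤ p)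
    (hsub : ball z δ ⊆ Ω) (hw : ∀ y ∈ ball z δ, w₀ ≤ W (1 - ‖φ y‖))
    (hint : ∫⁻ y in Ω, ‖f y‖ₑ ^ p * ENNReal.ofReal (W (1 - ‖φ y‖)) ≤ 1) :
    ‖f z‖ ≤ max 1 (1 / (Real.pi * δ ^ 2 * w₀)) := by
  have hp0 : 0 < p := by linarith
  have h1 := Pool.Agent.H402R2.SubMean.rpow_mul_le_lintegral hδ hp0 (hf.mono hsub)
  have h2 : (∫⁻ y in ball z δ, ‖f y‖ₑ ^ p) * ENNReal.ofReal w₀ ≤ 1 := by
    calc (∫⁻ y in ball z δ, ‖f y‖ₑ ^ p) * ENNReal.ofReal w₀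
        = ∫⁻ y in ball z δ, ‖f y‖ₑ ^ p * ENNReal.ofReal w₀ := by
          rw [lintegral_mul_const' _ _ ENNReal.ofReal_ne_top]
      _ ≤ ∫⁻ y in ball z δ, ‖f y‖ₑ ^ p * ENNReal.ofReal (W (1 - ‖φ y‖)) := by
          refine setLIntegral_mono' measurableSet_ball fun y hy => ?_
          gcongr
          exact hw y hy
      _ ≤ ∫⁻ y in Ω, ‖f y‖ₑ ^ p * ENNReal.ofReal (W (1 - ‖φ y‖)) :=
          lintegral_mono_set hsub
      _ ≤ 1 := hint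
  have h3 : ENNReal.ofReal (‖f z‖ ^ p * (Real.pi * δ ^ 2) * w₀) ≤ 1 := by
    rw [ENNReal.ofReal_mul (by positivity)]
    exact (mul_le_mul_left h1 _).trans h2
  have h4 : ‖f z‖ ^ p * (Real.pi * δ ^ 2) * w₀ ≤ 1 := by
    rwa [ENNReal.ofReal_le_one] at h3
  have hpos : 0 < Real.pi * δ ^ 2 * w₀ := by positivity
  have h5 : ‖f z‖ ^ p ≤ 1 / (Real.pi * δ ^ 2 * w₀) := by
    rw [le_div_iff₀ hpos]
    linarith
  by_contra hcon
  push Not at hcon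
  have h6 : 1 < ‖f z‖ := (le_max_left _ _).trans_lt hcon
  have h7 : ‖f z‖ ≤ ‖f z‖ ^ p := by
    calc ‖f z‖ = ‖f z‖ ^ (1 : ℝ) := (Real.rpow_one _).symm
      _ ≤ ‖f z‖ ^ p := Real.rpow_le_rpow_of_exponent_le h6.le hp
  have h8 := (le_max_right 1 (1 / (Real.pi * δ ^ 2 * w₀))).trans_lt hcon
  linarith

end Pool.Agent.Run7.h51.LL
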