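import Pool.Agent.Run7.h51.LL.Stage

/-!
# The stage lemma
-/

open Set Metric Filter Topology MeasureTheory
open scoped ENNReal

namespace Pool.Agent.Run7.h51.LL

/-- The dilation factors. -/
noncomputable def sa (n : ℕ) : ℝ := ((n : ℝ) + 1) / ((n : ℝ) + 2)

theorem sa_pos (n : ℕ) : 0 < sa n := by unfold sa; positivity

theorem sa_lt_one (n : ℕ) : sa n < 1 := by
  unfold sa
  rw [div_lt_one (by positivity)]
  linarith

theorem half_le_sa (n : ℕ) : 1 / 2 ≤ sa n := by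
  unfold sa
  have hn : (0 : ℝ) ≤ n := n.cast_nonneg
  rw [div_le_div_iff₀ (by norm_num) (by positivity)]
  linarith

theorem stage {W : ℝ → ℝ} (hW : IsW W) {U : Set ℂ} (hU : SS U) (n : ℕ) :
    ∃ Q : Set ℂ, Q.Finite ∧ Disjoint Q U ∧
      ∀ (Ω : Set ℂ) (g φ : ℂ → ℂ), U ⊆ Ω → Ω ⊆ ball 0 1 → Disjoint Q Ω → RM Ω g φ →
      ∀ p : ℝ, 1 ≤ p → p ≤ n + 1 → ∀ f : ℂ → ℂ, DifferentiableOn ℂ f Ω →
      (∫⁻ z in Ω, ‖f z‖ₑ ^ p * ENNReal.ofReal (W (1 - ‖φ z‖)) ≤ 1) →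
      ∃ P : Polynomial ℂ,
        (∀ z ∈ Ω, ((sa n ^ 2 : ℝ) : ℂ) * z ∈ U →
          ‖P.eval z - f (((sa n ^ 3 : ℝ) : ℂ) * z)‖ ≤ (1 / 2) ^ n) ∧
        (∀ z ∈ Ω, ((sa n ^ 2 : ℝ) : ℂ) * z ∉ U →
          ‖P.eval z‖ ^ p * W (1 - ‖φ z‖) ≤ ((1 / 2) ^ n) ^ p) := by
  have ha0 := sa_pos n
  have ha1 := sa_lt_one n
  have hah := half_le_sa n
  set a := sa n with ha
  have hUcl : closure U ⊆ closedBall 0 1 :=
    closure_minimal (hU.sub.trans ball_subset_closedBall) isClosed_closedBall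
  have hUcpt : IsCompact (closure U) :=
    (isCompact_closedBall (0 : ℂ) 1).of_isClosed_subset isClosed_closure hUcl
  -- the compact set `K`
  set K : Set ℂ := (fun z => (a : ℂ) * z) '' closure U with hKdef
  have hK : IsCompact K := hUcpt.image (by fun_prop)
  have hKU : K ⊆ U := by
    rintro _ ⟨z, hz, rfl⟩
    exact hU.star a ha0.le ha1 z hz
  have hK0 : (0 : ℂ) ∈ K := ⟨0, subset_closure hU.zero_mem, by simp⟩
  have hKs : ∀ s ∈ Icc (0 : ℝ) 1, ∀ z ∈ K, (s : ℂ) * z ∈ K := by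
    rintro s hs _ ⟨z, hz, rfl⟩
    refine ⟨(s : ℂ) * z, ?_, by ring⟩
    rcases hs.2.eq_or_lt with h | h
    · rw [h]; simpa using hz
    · exact subset_closure (hU.star s hs.1 h z hz)
  have hK1 : K ⊆ closedBall 0 1 := hKU.trans (hU.sub.trans ball_subset_closedBall)
  obtain ⟨δ', hδ', hδU⟩ := hK.exists_cthickening_subset_open hU.isOpen hKU
  set δ := δ' / 2 with hδdef
  have hδ : 0 < δ := by positivity
  set O : Set ℂ := thickening δ K with hOdef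
  have hOo : IsOpen O := isOpen_thickening
  have hKO : K ⊆ O := self_subset_thickening hδ K
  have hballO : ∀ z ∈ O, ball z δ ⊆ cthickening δ' K := by
    intro z hz w hw
    obtain ⟨x, hx, hzx⟩ := mem_thickening_iff.1 hz
    refine thickening_subset_cthickening δ' K (mem_thickening_iff.2 ⟨x, hx, ?_⟩)
    calc dist w x ≤ dist w z + dist z x := dist_triangle _ _ _
      _ < δ + δ := add_lt_add (mem_ball.1 hw) hzx
      _ = δ' := by rw [hδdef]; ring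
  have hLcpt : IsCompact (cthickening δ' K) := hK.cthickening
  have hL0 : (cthickening δ' K).Nonempty := ⟨0, self_subset_cthickening K hK0⟩
  -- the conformal map of `U` and the lower bound of the weight
  obtain ⟨gU, φU, hRU⟩ := exists_RM hU.isOpen hU.zero_mem
    (fun s hs z hz => hU.mul_mem hs.1 hs.2 hz) hU.sub
  have hcont : ContinuousOn (fun z => 1 - ‖φU z‖) (cthickening δ' K) :=
    continuousOn_const.sub (hRU.hφ.continuousOn.mono hδU).norm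
  obtain ⟨zm, hzm, hmin⟩ := hLcpt.exists_isMinOn hL0 hcont
  set c := 1 - ‖φU zm‖ with hc
  have hc0 : 0 < c := by
    have := mem_ball_zero_iff.1 (hRU.φm (hδU hzm))
    rw [hc]; linarith
  have hc1 : c ≤ 1 := by rw [hc]; linarith [norm_nonneg (φU zm)]
  have hw0 : 0 < W c := hW.pos c ⟨hc0, hc1⟩
  set C := max 1 (1 / (Real.pi * δ ^ 2 * W c)) with hC
  have hC1 : 1 ≤ C := le_max_left _ _
  have hCpos : 0 < C := by linarith
  have hε : 0 < (1 / 2 : ℝ) ^ n / C := by positivity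
  obtain ⟨M₀, hM₀⟩ := unif_runge hOo (hKO hK0) hK hKO hKs hK1 hε
  set M := max M₀ 1 with hM
  have hM1 : 1 ≤ M := le_max_right _ _
  set B := C * M with hB
  have hB1 : 1 ≤ B := by rw [hB]; nlinarith
  have hBpos : 0 < B := by linarith
  set x := (1 / 2 : ℝ) ^ n / B with hx
  have hx0 : 0 < x := by positivity
  have hx1 : x ≤ 1 := by
    rw [hx, div_le_one hBpos]
    exact (pow_le_one₀ (by norm_num) (by norm_num)).trans hB1
  set η := x ^ (n + 1) with hη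
  have hη0 : 0 < η := by positivity
  -- the level `t₀`
  obtain ⟨t₀, ht₀, hWt₀⟩ : ∃ t₀ ∈ Ioc (0 : ℝ) 1, W t₀ ≤ η := by
    have h1 : ∀ᶠ t in 𝓝[>] (0 : ℝ), W t < η := hW.lim.eventually (gt_mem_nhds hη0)
    have h2 : ∀ᶠ t in 𝓝[>] (0 : ℝ), t ∈ Ioc (0 : ℝ) 1 := Ioc_mem_nhdsGT one_pos
    obtain ⟨t, ht1, ht2⟩ := (h1.and h2).exists
    exact ⟨t, ht2, ht1.le⟩
  -- the sets `G` and `H`
  set G : Set ℂ := {z | (a : ℂ) * z ∈ U} with hG
  set H : Set ℂ := {z | ((a ^ 2 : ℝ) : ℂ) * z ∈ U} with hH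
  have hGo : IsOpen G := hU.isOpen.preimage (by fun_prop)
  have hHo : IsOpen H := hU.isOpen.preimage (by fun_prop)
  have h0G : (0 : ℂ) ∈ G := by
    show (a : ℂ) * 0 ∈ U
    rw [mul_zero]; exact hU.zero_mem
  have hUG : U ⊆ G := fun z hz => hU.mul_mem ha0.le ha1.le hz
  have hGcl : closure G ⊆ H := by
    intro z hz
    have h1 : (a : ℂ) * z ∈ closure U := by
      have hmaps : MapsTo (fun z => (a : ℂ) * z) G U := fun w hw => hw
      exact map_mem_closure (f := fun z => (a : ℂ) * z) (by fun_prop) hz hmaps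
    show ((a ^ 2 : ℝ) : ℂ) * z ∈ U
    have h2 := hU.star a ha0.le ha1 _ h1
    have h3 : ((a ^ 2 : ℝ) : ℂ) * z = (a : ℂ) * ((a : ℂ) * z) := by push_cast; ring
    rw [h3]; exact h2
  have hGcpt : IsCompact (closure G) := by
    refine (isCompact_closedBall (0 : ℂ) 2).of_isClosed_subset isClosed_closure ?_
    refine closure_minimal (fun z hz => ?_) isClosed_closedBall
    have h1 := mem_ball_zero_iff.1 (hU.sub hz)
    rw [norm_mul, Complex.norm_real, Real.norm_of_nonneg ha0.le] at h1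
    rw [mem_closedBall_zero_iff]
    nlinarith [norm_nonneg z]
  obtain ⟨d, hd, hdH⟩ := hGcpt.exists_thickening_subset_open hHo hGcl
  set ρ := (t₀ * d / 6) ^ 2 with hρ
  have ht₀0 : 0 < t₀ := ht₀.1
  have hρ0 : 0 < ρ := by positivity
  have hsq : 6 * √ρ = t₀ * d := by
    rw [hρ, Real.sqrt_sq (by positivity)]; ring
  have hcpt : IsCompact (closedBall (0 : ℂ) 1 \ G) := (isCompact_closedBall (0 : ℂ) 1).diff hGo
  obtain ⟨Q, hQsub, hQfin, hQcov⟩ := finite_cover_balls_of_compact hcpt hρ0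
  refine ⟨Q, hQfin, ?_, ?_⟩
  · rw [Set.disjoint_left]
    intro q hq hqU
    exact (hQsub hq).2 (hUG hqU)
  intro Ω g φ hUΩ hΩ1 hQΩ hR p hp1 hpn f hf hint
  -- thinness
  have hthin : ∀ z ∈ Ω, ((a ^ 2 : ℝ) : ℂ) * z ∉ U → W (1 - ‖φ z‖) ≤ η := by
    intro z hz hzH
    have hζ : ‖φ z‖ < 1 := mem_ball_zero_iff.1 (hR.φm hz)
    have hnet : ∀ w ∈ Ω, w ∉ G → ∃ q, q ∉ Ω ∧ dist q w ≤ ρ := by
      intro w hw hwG
      have h1 := hQcov ⟨ball_subset_closedBall (hΩ1 hw), hwG⟩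
      obtain ⟨q, hq, hwq⟩ := mem_iUnion₂.1 h1
      exact ⟨q, fun hqΩ => hQΩ.le_bot ⟨hq, hqΩ⟩, by rw [dist_comm]; exact (mem_ball.1 hwq).le⟩
    have hdd : ∀ y ∈ closure G, d ≤ dist (g (φ z)) y := by
      intro y hy
      rw [hR.gφ z hz]
      by_contra hcon
      push Not at hcon
      exact hzH (hdH (mem_thickening_iff.2 ⟨y, hy, hcon⟩))
    have h1 := thin hR.hg hR.gm hΩ1 hR.g0 hGo h0G hnet hζ hdd
    rw [hsq] at h1
    have h2 : 1 - ‖φ z‖ ≤ t₀ := by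
      have h3 : d * (1 - ‖φ z‖) ≤ d * t₀ := by linarith
      exact le_of_mul_le_mul_left h3 hd
    exact (hW.mono ⟨by linarith, by linarith [norm_nonneg (φ z)]⟩ ht₀ h2).trans hWt₀
  -- the bound on `O`
  have hfO : ∀ z ∈ O, ‖f z‖ ≤ C := by
    intro z hz
    refine point_bound (Ω := Ω) (W := W) (φ := φ) hf hδ hw0 hp1
      ((hballO z hz).trans (hδU.trans hUΩ)) (fun y hy => ?_) hint
    have hyL := hballO z hz hy
    have hyU := hδU hyL
    have h1 : c ≤ 1 - ‖φU y‖ := hmin hyL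
    have h2 := hRU.norm_le hR hUΩ hyU
    have h3 : ‖φ y‖ < 1 := mem_ball_zero_iff.1 (hR.φm (hUΩ hyU))
    exact hW.mono ⟨hc0, hc1⟩ ⟨by linarith, by linarith [norm_nonneg (φ y)]⟩ (by linarith)
  have hOU : O ⊆ U := fun z hz => hδU (hballO z hz (mem_ball_self hδ))
  obtain ⟨P₀, hP₀1, hP₀2⟩ := hM₀ (fun z => ((C⁻¹ : ℝ) : ℂ) * f z)
    ((hf.mono (hOU.trans hUΩ)).const_mul _) (fun z hz => by
      rw [norm_mul, Complex.norm_real, Real.norm_of_nonneg (by positivity)]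
      calc C⁻¹ * ‖f z‖ ≤ C⁻¹ * C := by gcongr; exact hfO z hz
        _ = 1 := inv_mul_cancel₀ hCpos.ne')
  set P : Polynomial ℂ := (Polynomial.C (C : ℂ) * P₀).comp
    (Polynomial.C (((a ^ 3 : ℝ) : ℂ)) * Polynomial.X) with hP
  have hPe : ∀ z, P.eval z = (C : ℂ) * P₀.eval (((a ^ 3 : ℝ) : ℂ) * z) := by
    intro z
    simp [hP, Polynomial.eval_comp, Polynomial.eval_mul]
  refine ⟨P, fun z hz hzU => ?_, fun z hz hzU => ?_⟩
  · have hzK : ((a ^ 3 : ℝ) : ℂ) * z ∈ K :=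
      ⟨((a ^ 2 : ℝ) : ℂ) * z, subset_closure hzU, by push_cast; ring⟩
    have h1 := hP₀1 _ hzK
    rw [hPe]
    have h2 : (C : ℂ) * P₀.eval (((a ^ 3 : ℝ) : ℂ) * z) - f (((a ^ 3 : ℝ) : ℂ) * z)
        = (C : ℂ) * (P₀.eval (((a ^ 3 : ℝ) : ℂ) * z)
          - ((C⁻¹ : ℝ) : ℂ) * f (((a ^ 3 : ℝ) : ℂ) * z)) := by
      have hC' : (C : ℂ) ≠ 0 := by exact_mod_cast hCpos.ne'
      push_cast
      field_simp
    rw [h2, norm_mul, Complex.norm_real, Real.norm_of_nonneg hCpos.le]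
    calc C * ‖P₀.eval (((a ^ 3 : ℝ) : ℂ) * z) - ((C⁻¹ : ℝ) : ℂ) * f (((a ^ 3 : ℝ) : ℂ) * z)‖
        ≤ C * ((1 / 2 : ℝ) ^ n / C) := by gcongr
      _ = (1 / 2) ^ n := by field_simp
  · have hz1 : ‖((a ^ 3 : ℝ) : ℂ) * z‖ ≤ 1 := by
      rw [norm_mul, Complex.norm_real, Real.norm_of_nonneg (by positivity)]
      have h1 : ‖z‖ ≤ 1 := (mem_ball_zero_iff.1 (hΩ1 hz)).le
      have h2 : a ^ 3 ≤ 1 := pow_le_one₀ ha0.le ha1.le
      calc a ^ 3 * ‖z‖ ≤ 1 * 1 := by gcongr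
        _ = 1 := one_mul 1
    have h1 : ‖P.eval z‖ ≤ B := by
      rw [hPe, norm_mul, Complex.norm_real, Real.norm_of_nonneg hCpos.le, hB]
      gcongr
      exact (hP₀2 _ hz1).trans (le_max_left _ _)
    have h2 := hthin z hz hzU
    have hp0 : 0 ≤ p := by linarith
    have h3 : η ≤ x ^ p := by
      rw [hη, ← Real.rpow_natCast]
      refine Real.rpow_le_rpow_of_exponent_ge hx0 hx1 ?_
      push_cast
      exact hpn
    have hWnn : 0 ≤ W (1 - ‖φ z‖) := by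
      have h4 : ‖φ z‖ < 1 := mem_ball_zero_iff.1 (hR.φm hz)
      exact (hW.pos _ ⟨by linarith, by linarith [norm_nonneg (φ z)]⟩).le
    calc ‖P.eval z‖ ^ p * W (1 - ‖φ z‖) ≤ B ^ p * x ^ p := by
          refine mul_le_mul (Real.rpow_le_rpow (norm_nonneg _) h1 hp0) (h2.trans h3) hWnn ?_
          positivity
      _ = (B * x) ^ p := (Real.mul_rpow hBpos.le hx0.le).symm
      _ = ((1 / 2) ^ n) ^ p := by
          congr 1
          rw [hx]; field_simp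

end Pool.Agent.Run7.h51.LL
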